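import Pool.Agent.H892R2.Fuchs.Defs

/-! Task E2 (helper679): convergence of the Poincaré series at exponent `1/52` from the weights. -/

open UpperHalfPlane Matrix MatrixGroups

namespace H892R2.Fuchs
namespace E2

/-- a family of products over tuples is summable, with sum the power -/
theorem hasSum_tuple {β : ℕ → ℝ} (h0 : ∀ n, 0 ≤ β n) (hs : Summable β) (k : ℕ) :
    HasSum (fun f : Fin k → ℕ => ∏ i, β (f i)) ((∑' n, β n) ^ k) := by
  induction k with
  | zero =>
    have : (fun f : Fin 0 → ℕ => ∏ i, β (f i)) = fun _ => (1 : ℝ) := by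
      funext f; simp
    rw [this, pow_zero]
    have h := hasSum_fintype (fun _ : Fin 0 → ℕ => (1 : ℝ))
    simpa using h
  | succ k ih =>
    have h1 : HasSum (fun p : ℕ × (Fin k → ℕ) => β p.1 * ∏ i, β (p.2 i))
        ((∑' n, β n) * (∑' n, β n) ^ k) := by
      apply HasSum.mul hs.hasSum ih
      exact Summable.mul_of_nonneg hs ih.summable h0 (fun f => Finset.prod_nonneg fun i _ => h0 _)
    have e : (∑' n, β n) ^ (k + 1) = (∑' n, β n) * (∑' n, β n) ^ k := by ring
    rw [e, ← (Fin.consEquiv (fun _ : Fin (k+1) => ℕ)).hasSum_iff]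
    convert h1 using 2 with p
    simp [Fin.prod_univ_succ, Fin.consEquiv]

theorem summable_list {β : ℕ → ℝ} (h0 : ∀ n, 0 ≤ β n) (hs : Summable β) (h1 : ∑' n, β n < 1) :
    Summable (fun l : List ℕ => (l.map β).prod) := by
  rw [← (List.equivSigmaTuple (α := ℕ)).symm.summable_iff]
  have h2 : ∀ q : (Σ n, Fin n → ℕ),
      0 ≤ ((fun l : List ℕ => (l.map β).prod) ∘ (List.equivSigmaTuple (α := ℕ)).symm) q := by
    intro q
    apply List.prod_nonneg
    intro a ha
    obtain ⟨b, -, rfl⟩ := List.mem_map.1 ha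
    exact h0 b
  rw [summable_sigma_of_nonneg h2]
  have h3 : ∀ (k : ℕ), (fun f : Fin k → ℕ =>
      ((fun l : List ℕ => (l.map β).prod) ∘ (List.equivSigmaTuple (α := ℕ)).symm) ⟨k, f⟩)
      = fun f : Fin k → ℕ => ∏ i, β (f i) := by
    intro k
    funext f
    simp [List.equivSigmaTuple, List.map_ofFn, List.prod_ofFn]
  constructor
  · intro k
    rw [h3 k]
    exact (hasSum_tuple h0 hs k).summable
  · have h4 : (fun k : ℕ => ∑' f : Fin k → ℕ,
        ((fun l : List ℕ => (l.map β).prod) ∘ (List.equivSigmaTuple (α := ℕ)).symm) ⟨k, f⟩)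
        = fun k => (∑' n, β n) ^ k := by
      funext k
      rw [h3 k]
      exact (hasSum_tuple h0 hs k).tsum_eq
    rw [h4]
    exact summable_geometric_of_lt_one (tsum_nonneg h0) h1

/-- the bounding function -/
def bd (a β : ℕ → ℝ) : List ℕ → ℝ
  | [] => 1
  | n :: t => a n * (t.map β).prod

theorem summable_bd {a β : ℕ → ℝ} (ha0 : ∀ n, 0 ≤ a n) (ha : Summable a)
    (h0 : ∀ n, 0 ≤ β n) (hs : Summable β) (h1 : ∑' n, β n < 1) : Summable (bd a β) := by
  have h2 : Summable (fun p : ℕ × List ℕ => a p.1 * (p.2.map β).prod) := by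
    apply Summable.mul_of_nonneg ha (summable_list h0 hs h1) ha0
    intro l
    apply List.prod_nonneg
    intro x hx
    obtain ⟨b, -, rfl⟩ := List.mem_map.1 hx
    exact h0 b
  -- transfer along `n :: t`
  let g : ℕ × List ℕ → List ℕ := fun p => p.1 :: p.2
  have hg : Function.Injective g := by
    rintro ⟨a, b⟩ ⟨a', b'⟩ h
    simp only [g, List.cons.injEq] at h
    ext1 <;> simp [h.1, h.2]
  have h3 : Summable (fun l : List ℕ => bd a β l - if l = [] then 1 else 0) := by
    rw [← hg.summable_iff]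
    · refine h2.congr ?_
      rintro ⟨n, t⟩
      simp [g, bd]
    · intro l hl
      cases l with
      | nil => simp [bd]
      | cons n t => exact absurd ⟨(n, t), rfl⟩ hl
  have h4 : Summable (fun l : List ℕ => if l = [] then (1:ℝ) else 0) := by
    apply summable_of_ne_finset_zero (s := {[]})
    intro l hl
    simp at hl
    simp [hl]
  refine (h3.add h4).congr ?_
  intro l
  ring

theorem exp_dist_upper (z : ℍ) : Real.exp (-dist I z) ≤ 2 * z.im := by
  have hz := z.im_pos
  have h1 : Real.cosh (dist I z) = 1 + dist (I : ℂ) z ^ 2 / (2 * 1 * z.im) := by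
    have := UpperHalfPlane.cosh_dist I z
    simpa using this
  have h2 : dist (I : ℂ) z ^ 2 = z.re ^ 2 + (1 - z.im) ^ 2 := by
    rw [Complex.dist_eq, ← Complex.normSq_eq_norm_sq, Complex.normSq_apply]
    simp
    ring
  have h3 : Real.cosh (dist I z) ≤ Real.exp (dist I z) := by
    rw [Real.cosh_eq]
    have : Real.exp (-dist I z) ≤ Real.exp (dist I z) :=
      Real.exp_le_exp.2 (by have := dist_nonneg (x := I) (y := z); linarith)
    linarith
  have h4 : 1 / (2 * z.im) ≤ Real.cosh (dist I z) := by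
    rw [h1, h2, div_le_iff₀ (by positivity)]
    field_simp
    nlinarith [sq_nonneg z.re]
  have h5 : 1 / (2 * z.im) ≤ Real.exp (dist I z) := h4.trans h3
  have h6 := Real.exp_pos (dist I z)
  rw [Real.exp_neg, inv_le_comm₀ h6 (by positivity)]
  rwa [one_div] at h5

theorem im_bound {c ρ x y : ℕ → ℝ} (hρ : ∀ n, 0 < ρ n) (w : Weights c ρ x y)
    (hping : ∀ n t, Reduced (n :: t) → sig c ρ n (word c ρ (n :: t) • I) ≤ 0)
    (n : ℕ) (t : List ℕ) (h : Reduced (n :: t)) :
    (word c ρ (n :: t) • I : ℍ).im ≤ x n * (t.map (fun m => x m * y m)).prod := by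
  induction t generalizing n with
  | nil =>
    have h1 : word c ρ [n] • I = turn (c n) (ρ n) • I := by simp [word]
    rw [h1, turn_im (hρ n)]
    have h2 : (I : ℍ).im = 1 := by simp
    rw [h2, div_le_iff₀ (nsq_pos _ _)]
    simpa using w.base n
  | cons m t ih =>
    have h' : Reduced (m :: t) ∧ n ≠ m := by
      unfold Reduced at h ⊢
      rw [List.isChain_cons_cons] at h
      exact ⟨h.2, h.1⟩
    have ih' := ih m h'.1
    have hc := w.cross n m h'.2 _ (hping m t h'.1)
    have h1 : word c ρ (n :: m :: t) • I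
        = turn (c n) (ρ n) • (word c ρ (m :: t) • I) := by
      rw [word, List.map_cons, List.prod_cons, mul_smul]; rfl
    rw [h1, turn_im (hρ n)]
    set z := word c ρ (m :: t) • I with hz
    have hzi := z.im_pos
    rw [div_le_iff₀ (nsq_pos _ _), List.map_cons, List.prod_cons]
    have h0 : 0 ≤ x n * y m := (mul_pos (w.xpos n) (w.ypos m)).le
    calc ρ n ^ 2 * z.im ≤ (x n * y m * nsq z (c n)) * z.im :=
          mul_le_mul_of_nonneg_right hc hzi.le
      _ = (x n * y m * nsq z (c n)) * z.im := rfl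
      _ ≤ (x n * y m * nsq z (c n)) * (x m * (t.map (fun m => x m * y m)).prod) := by
          apply mul_le_mul_of_nonneg_left ih'
          exact mul_nonneg h0 (nsq_pos _ _).le
      _ = _ := by ring

theorem prod_rpow (l : List ℕ) (f : ℕ → ℝ) (hf : ∀ n, 0 ≤ f n) (s : ℝ) :
    (l.map f).prod ^ s = (l.map (fun n => f n ^ s)).prod := by
  induction l with
  | nil => simp
  | cons n t ih =>
    rw [List.map_cons, List.prod_cons, List.map_cons, List.prod_cons, Real.mul_rpow (hf n), ih]
    apply List.prod_nonneg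
    intro a ha
    obtain ⟨b, -, rfl⟩ := List.mem_map.1 ha
    exact hf b

end E2

/-- E2: convergence at exponent `1/52` from the weights. (`hping` is ping-pong, proved in part G.) -/
theorem converge {c ρ x y : ℕ → ℝ} (hρ : ∀ n, 0 < ρ n) (w : Weights c ρ x y)
    (hping : ∀ n t, Reduced (n :: t) → sig c ρ n (word c ρ (n :: t) • I) ≤ 0) :
    Summable (fun l : {l : List ℕ // Reduced l} =>
      Real.exp (-(1 / 52) * dist I (word c ρ l.1 • I))) := by
  have hS : Summable (fun l : List ℕ => (2 : ℝ) ^ (1 / 52 : ℝ) *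
      E2.bd (fun n => x n ^ (1 / 52 : ℝ)) (fun n => (x n * y n) ^ (1 / 52 : ℝ)) l) := by
    apply Summable.mul_left
    apply E2.summable_bd _ w.sumx _ w.sumb w.sumb_lt
    · intro n; have := w.xpos n; positivity
    · intro n; have := w.xpos n; have := w.ypos n; positivity
  have hS2 := hS.comp_injective (Subtype.val_injective (p := fun l : List ℕ => Reduced l))
  refine Summable.of_nonneg_of_le (fun l => (Real.exp_pos _).le) ?_ hS2
  rintro ⟨l, hl⟩
  simp only [Function.comp_def]
  have e1 : Real.exp (-(1 / 52) * dist I (word c ρ l • I))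
      = Real.exp (-dist I (word c ρ l • I)) ^ (1 / 52 : ℝ) := by
    rw [← Real.exp_mul]; ring_nf
  have h1 : Real.exp (-(1 / 52) * dist I (word c ρ l • I))
      ≤ (2 * (word c ρ l • I : ℍ).im) ^ (1 / 52 : ℝ) := by
    rw [e1]
    exact Real.rpow_le_rpow (Real.exp_pos _).le (E2.exp_dist_upper _) (by norm_num)
  refine h1.trans ?_
  have him := (word c ρ l • I : ℍ).im_pos
  rw [Real.mul_rpow (by norm_num) him.le]
  apply mul_le_mul_of_nonneg_left _ (by positivity)
  cases l with
  | nil =>
    have : word c ρ [] • I = I := by simp [word]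
    rw [this]
    simp [E2.bd]
  | cons n t =>
    have hb := E2.im_bound hρ w hping n t hl
    have h3 : 0 ≤ (t.map (fun m => x m * y m)).prod := by
      apply List.prod_nonneg
      intro a ha
      obtain ⟨b, -, rfl⟩ := List.mem_map.1 ha
      exact (mul_pos (w.xpos b) (w.ypos b)).le
    have h2 : E2.bd (fun n => x n ^ (1 / 52 : ℝ)) (fun n => (x n * y n) ^ (1 / 52 : ℝ)) (n :: t)
        = (x n * (t.map (fun m => x m * y m)).prod) ^ (1 / 52 : ℝ) := by
      rw [Real.mul_rpow (w.xpos n).le h3,
        E2.prod_rpow t _ (fun m => (mul_pos (w.xpos m) (w.ypos m)).le)]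
      rfl
    rw [h2]
    exact Real.rpow_le_rpow him.le hb (by norm_num)

end H892R2.Fuchs
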