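import Pool.Agent.H892R2.Fuchs.Defs

/-! Task E1 (helper679): divergence of the Poincaré series for `λ = 1` up to exponent `1/51`. -/

open UpperHalfPlane Matrix MatrixGroups

namespace H892R2.Fuchs
namespace E1

/-- next block letter, never equal to the previous one -/
def nxt (p : ℕ) (b : Bool) : ℕ := if b then p % 3 + 1 else (p + 1) % 3 + 1

/-- encoding of lists of pairs of bits as reduced words -/
def enc : ℕ → List (Bool × Bool) → List ℕ
  | _, [] => []
  | p, (b, z) :: L => nxt p b :: (if z then 0 :: enc (nxt p b) L else enc (nxt p b) L)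

theorem nxt_range (p : ℕ) (b : Bool) : nxt p b = 1 ∨ nxt p b = 2 ∨ nxt p b = 3 := by
  unfold nxt; split <;> omega

theorem nxt_ne {p : ℕ} (_hp : p = 1 ∨ p = 2 ∨ p = 3) (b : Bool) : nxt p b ≠ p := by
  unfold nxt; split <;> omega

theorem nxt_inj {p : ℕ} {b b' : Bool} (h : nxt p b = nxt p b') : b = b' := by
  unfold nxt at h
  cases b <;> cases b' <;> simp at h ⊢ <;> omega

theorem enc_head {p : ℕ} {L : List (Bool × Bool)} {a : ℕ} (h : a ∈ (enc p L).head?) :
    ∃ b, a = nxt p b := by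
  cases L with
  | nil => simp [enc] at h
  | cons x L => obtain ⟨b, z⟩ := x; simp [enc] at h; exact ⟨b, h.symm⟩

theorem enc_reduced {p : ℕ} (hp : p = 1 ∨ p = 2 ∨ p = 3) (L : List (Bool × Bool)) :
    Reduced (enc p L) := by
  induction L generalizing p with
  | nil => exact List.IsChain.nil
  | cons x L ih =>
    obtain ⟨b, z⟩ := x
    have hn := nxt_range p b
    have ih' := ih hn
    unfold Reduced at ih' ⊢
    cases z
    · simp only [enc, Bool.false_eq_true, if_false]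
      rw [List.isChain_cons]
      refine ⟨?_, ih'⟩
      intro y hy
      obtain ⟨b', rfl⟩ := enc_head hy
      exact (nxt_ne hn b').symm
    · simp only [enc, if_true]
      rw [List.isChain_cons]
      refine ⟨?_, ?_⟩
      · intro y hy
        simp at hy
        omega
      · rw [List.isChain_cons]
        refine ⟨?_, ih'⟩
        intro y hy
        obtain ⟨b', rfl⟩ := enc_head hy
        have := nxt_range (nxt p b) b'
        omega

theorem enc_ne_zero_cons {p : ℕ} (L : List (Bool × Bool)) (t : List ℕ) : enc p L ≠ 0 :: t := by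
  intro h
  have : (0 : ℕ) ∈ (enc p L).head? := by rw [h]; simp
  obtain ⟨b, hb⟩ := enc_head this
  have := nxt_range p b
  omega

theorem enc_inj {p : ℕ} : ∀ {L L' : List (Bool × Bool)}, enc p L = enc p L' → L = L' := by
  intro L
  induction L generalizing p with
  | nil =>
    intro L' h
    cases L' with
    | nil => rfl
    | cons x L' => obtain ⟨b, z⟩ := x; simp [enc] at h
  | cons x L ih =>
    intro L' h
    obtain ⟨b, z⟩ := x
    cases L' with
    | nil => simp [enc] at h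
    | cons x' L' =>
      obtain ⟨b', z'⟩ := x'
      simp only [enc, List.cons.injEq] at h
      obtain ⟨h1, h2⟩ := h
      have hb := nxt_inj h1
      subst hb
      cases z <;> cases z'
      · simp only [Bool.false_eq_true, if_false] at h2
        rw [ih h2]
      · simp only [Bool.false_eq_true, if_false, if_true] at h2
        exact absurd h2 (enc_ne_zero_cons _ _)
      · simp only [Bool.false_eq_true, if_false, if_true] at h2
        exact absurd h2.symm (enc_ne_zero_cons _ _)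
      · simp only [if_true, List.cons.injEq, true_and] at h2
        rw [ih h2]

/-! ### geometry -/

theorem nsq_turn {c ρ : ℝ} (h : 0 < ρ) (z : ℍ) : nsq (turn c ρ • z) c = ρ ^ 4 / nsq z c := by
  have h0 := nsq_pos z c
  have h1 : nsq (turn c ρ • z) c
      = ((turn c ρ • z : ℍ).re - c) ^ 2 + (turn c ρ • z : ℍ).im ^ 2 := rfl
  have h2 : nsq z c = (z.re - c) ^ 2 + z.im ^ 2 := rfl
  have h3 : (z.re - c) ^ 2 + z.im ^ 2 ≠ 0 := by rw [← h2]; exact h0.ne'
  rw [h1, turn_re h, turn_im h, h2]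
  field_simp
  ring

/-- the invariant -/
def P (p : ℕ) (w : ℍ) : Prop :=
  w = I ∨ ∃ b : ℕ, (b = 1 ∨ b = 2 ∨ b = 3) ∧ b ≠ p ∧ nsq w (b : ℝ) ≤ 1 / 100

theorem P_nsq {p : ℕ} (hp : p = 1 ∨ p = 2 ∨ p = 3) {w : ℍ} (h : P p w) :
    1 / 4 ≤ nsq w p ∧ nsq w p ≤ 49 ∧ nsq w 0 ≤ 16 ∧ 1 / 2 ≤ nsq w 0 ∧ 0 ≤ w.re := by
  rcases h with rfl | ⟨b, hb, hbp, h⟩
  · have h1 : (I : ℍ).re = 0 := by simp
    have h2 : (I : ℍ).im = 1 := by simp
    unfold nsq
    rw [h1, h2]
    rcases hp with rfl | rfl | rfl <;> norm_num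
  · have hw := w.im_pos
    unfold nsq at *
    set x := w.re
    set y := w.im
    have hy : y ^ 2 ≤ 1 / 100 := by nlinarith [sq_nonneg (x - (b : ℝ))]
    have hx : (x - (b : ℝ)) ^ 2 ≤ 1 / 100 := by nlinarith [sq_nonneg y]
    have hx1 : |x - (b : ℝ)| ≤ 1 / 10 := by
      apply abs_le_of_sq_le_sq _ (by norm_num)
      nlinarith
    rw [abs_le] at hx1
    obtain ⟨hxl, hxu⟩ := hx1
    rcases hp with rfl | rfl | rfl <;> rcases hb with rfl | rfl | rfl <;>
      first
        | exact absurd rfl hbp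
        | (push_cast at *
           refine ⟨?_, ?_, ?_, ?_, ?_⟩ <;> nlinarith [sq_nonneg y])

theorem turn0 {w : ℍ} {p : ℕ} (hp : p = 1 ∨ p = 2 ∨ p = 3) (h : P p w) :
    1 / 4 ≤ nsq (turn 0 1 • w) p ∧ nsq (turn 0 1 • w) p ≤ 49 ∧
      w.im / 16 ≤ (turn 0 1 • w : ℍ).im := by
  obtain ⟨-, -, h3, h4, h5⟩ := P_nsq hp h
  have hN : 0 < nsq w 0 := nsq_pos w 0
  have him := turn_im (c := 0) (ρ := 1) one_pos w
  have hre := turn_re (c := 0) (ρ := 1) one_pos w
  have e : nsq (turn 0 1 • w) p = 1 / nsq w 0 + 2 * p * (w.re / nsq w 0) + (p : ℝ) ^ 2 := by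
    have h1 : nsq (turn 0 1 • w) p
      = ((turn 0 1 • w : ℍ).re - p) ^ 2 + (turn 0 1 • w : ℍ).im ^ 2 := rfl
    rw [h1, him, hre]
    have h2 : w.re ^ 2 + w.im ^ 2 = nsq w 0 := by unfold nsq; ring
    field_simp
    nlinarith [h2]
  have hx : w.re ^ 2 ≤ nsq w 0 := by unfold nsq; nlinarith [sq_nonneg w.im]
  have hx4 : w.re ≤ 4 := by nlinarith
  have hd : 0 ≤ w.re / nsq w 0 := by positivity
  have hd2 : w.re / nsq w 0 ≤ 4 := by
    rw [div_le_iff₀ hN]
    nlinarith [sq_nonneg (w.re - 1 / 2)]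
  have hi : 1 / nsq w 0 ≤ 2 := by
    rw [div_le_iff₀ hN]; linarith
  have hi0 : 0 ≤ 1 / nsq w 0 := by positivity
  refine ⟨?_, ?_, ?_⟩
  · rw [e]
    rcases hp with rfl | rfl | rfl <;> push_cast <;> nlinarith
  · rw [e]
    rcases hp with rfl | rfl | rfl <;> push_cast <;> nlinarith
  · rw [him, one_pow, one_mul]
    exact div_le_div_of_nonneg_left w.im_pos.le hN h3

theorem eps_pos : 0 < eps := by unfold eps; positivity

theorem eps_le : eps ≤ 1 / 10 := by unfold eps; norm_num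

theorem turnA {u : ℍ} {a : ℕ} (h1 : 1 / 4 ≤ nsq u a) (h2 : nsq u a ≤ 49) :
    nsq (turn a eps • u) a ≤ 1 / 100 ∧ eps ^ 2 / 49 * u.im ≤ (turn a eps • u : ℍ).im := by
  have he := eps_pos
  have he1 := eps_le
  have hN := nsq_pos u a
  constructor
  · rw [nsq_turn he, div_le_iff₀ hN]
    have : eps ^ 4 ≤ (1 / 10) ^ 4 := pow_le_pow_left₀ he.le he1 4
    nlinarith
  · rw [turn_im he, div_mul_eq_mul_div]
    apply div_le_div_of_nonneg_left _ hN h2
    have := u.im_pos
    positivity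

theorem val_bound {c ρ : ℕ → ℝ} (hs : Start c ρ) (hc0 : c 0 = 0) (hρ0 : ρ 0 = 1)
    {p : ℕ} (hp : p = 1 ∨ p = 2 ∨ p = 3) (L : List (Bool × Bool)) :
    P p (word c ρ (enc p L) • I) ∧
      (eps ^ 2 / 784) ^ L.length ≤ (word c ρ (enc p L) • I : ℍ).im := by
  induction L generalizing p with
  | nil =>
    have h1 : word c ρ (enc p []) • I = I := by simp [enc, word]
    rw [h1]
    refine ⟨Or.inl rfl, ?_⟩
    simp
  | cons x L ih =>
    obtain ⟨b, z⟩ := x
    have hn := nxt_range p b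
    obtain ⟨ih1, ih2⟩ := ih hn
    set a := nxt p b with ha
    set w := word c ρ (enc a L) • I with hw
    have hca : c a = (a : ℝ) := by
      rcases hn with h | h | h <;> rw [h] <;> simp [hs.c1, hs.c2, hs.c3]
    have hρa : ρ a = eps := by
      rcases hn with h | h | h <;> rw [h] <;> simp [hs.ρ1, hs.ρ2, hs.ρ3]
    have hap : a ≠ p := nxt_ne hp b
    have hwi := w.im_pos
    have key : ∃ u : ℍ, word c ρ (enc p ((b, z) :: L)) • I = turn a eps • u ∧
        1 / 4 ≤ nsq u a ∧ nsq u a ≤ 49 ∧ w.im / 16 ≤ u.im := by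
      cases z
      · refine ⟨w, ?_, (P_nsq hn ih1).1, (P_nsq hn ih1).2.1, by linarith⟩
        simp only [enc, Bool.false_eq_true, if_false, ← ha]
        rw [word, List.map_cons, List.prod_cons, mul_smul, hca, hρa]
        rfl
      · refine ⟨turn 0 1 • w, ?_, (turn0 hn ih1).1, (turn0 hn ih1).2.1, (turn0 hn ih1).2.2⟩
        simp only [enc, if_true, ← ha]
        rw [word, List.map_cons, List.prod_cons, List.map_cons, List.prod_cons, mul_smul, mul_smul,
          hca, hρa, hc0, hρ0]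
        rfl
    obtain ⟨u, hu, hu1, hu2, hu3⟩ := key
    rw [hu]
    obtain ⟨k1, k2⟩ := turnA hu1 hu2
    refine ⟨Or.inr ⟨a, hn, hap, k1⟩, le_trans ?_ k2⟩
    rw [List.length_cons, pow_succ]
    have he := eps_pos
    calc (eps ^ 2 / 784) ^ L.length * (eps ^ 2 / 784) ≤ w.im * (eps ^ 2 / 784) := by
          apply mul_le_mul_of_nonneg_right ih2; positivity
      _ = eps ^ 2 / 49 * (w.im / 16) := by ring
      _ ≤ eps ^ 2 / 49 * u.im := by
          apply mul_le_mul_of_nonneg_left hu3; positivity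

theorem exp_dist_lower {z : ℍ} (h : nsq z 0 ≤ 16) : z.im / 17 ≤ Real.exp (-dist I z) := by
  have hz := z.im_pos
  have h1 : Real.cosh (dist I z) = 1 + dist (I : ℂ) z ^ 2 / (2 * 1 * z.im) := by
    have := UpperHalfPlane.cosh_dist I z
    simpa using this
  have h2 : dist (I : ℂ) z ^ 2 = z.re ^ 2 + (1 - z.im) ^ 2 := by
    rw [Complex.dist_eq, ← Complex.normSq_eq_norm_sq, Complex.normSq_apply]
    simp
    ring
  have h3 : Real.exp (dist I z) ≤ 2 * Real.cosh (dist I z) := by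
    rw [Real.cosh_eq]
    have := Real.exp_pos (-dist I z)
    linarith
  have h4 : 2 * Real.cosh (dist I z) ≤ 17 / z.im := by
    rw [h1, h2, le_div_iff₀ hz]
    have h5 : z.re ^ 2 + z.im ^ 2 ≤ 16 := by unfold nsq at h; nlinarith
    field_simp
    nlinarith
  have h5 : Real.exp (dist I z) ≤ 17 / z.im := h3.trans h4
  rw [Real.exp_neg, div_le_iff₀ (by norm_num : (0:ℝ) < 17)]
  have h6 := Real.exp_pos (dist I z)
  rw [le_div_iff₀ hz] at h5
  rw [← div_eq_inv_mul, le_div_iff₀ h6]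
  linarith

theorem num : (1 : ℝ) ≤ 4 ^ 51 * (eps ^ 2 / 784) := by
  unfold eps
  norm_num

theorem num' {s : ℝ} (s0 : 0 < s) (s1 : s ≤ 1 / 51) : (1 : ℝ) ≤ 4 * (eps ^ 2 / 784) ^ s := by
  have he := eps_pos
  have hb0 : 0 < eps ^ 2 / 784 := by positivity
  have hb1 : eps ^ 2 / 784 ≤ 1 := by
    have := eps_le
    nlinarith
  have h1 : (eps ^ 2 / 784) ^ (1 / 51 : ℝ) ≤ (eps ^ 2 / 784) ^ s :=
    Real.rpow_le_rpow_of_exponent_ge hb0 hb1 s1
  have h2 : (1 : ℝ) ≤ 4 * (eps ^ 2 / 784) ^ (1 / 51 : ℝ) := by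
    have h3 : (4 * (eps ^ 2 / 784) ^ (1 / 51 : ℝ)) ^ 51 = 4 ^ 51 * (eps ^ 2 / 784) := by
      rw [mul_pow, ← Real.rpow_natCast ((eps ^ 2 / 784) ^ (1 / 51 : ℝ)), ← Real.rpow_mul hb0.le]
      norm_num
    by_contra hlt
    push Not at hlt
    have h4 : (4 * (eps ^ 2 / 784) ^ (1 / 51 : ℝ)) ^ 51 < 1 :=
      pow_lt_one₀ (by positivity) hlt (by norm_num)
    rw [h3] at h4
    linarith [num]
  linarith

theorem term_lower {c ρ : ℕ → ℝ} (hs : Start c ρ) (hc0 : c 0 = 0) (hρ0 : ρ 0 = 1)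
    {s : ℝ} (s0 : 0 < s) (L : List (Bool × Bool)) :
    (1 / 17 : ℝ) ^ s * ((eps ^ 2 / 784) ^ s) ^ L.length ≤
      Real.exp (-s * dist I (word c ρ (enc 1 L) • I)) := by
  obtain ⟨h1, h2⟩ := val_bound hs hc0 hρ0 (Or.inl rfl : (1:ℕ) = 1 ∨ 1 = 2 ∨ 1 = 3) L
  have h3 := exp_dist_lower (P_nsq (Or.inl rfl) h1).2.2.1
  have he := eps_pos
  have e1 : Real.exp (-s * dist I (word c ρ (enc 1 L) • I))
      = Real.exp (-dist I (word c ρ (enc 1 L) • I)) ^ s := by
    rw [← Real.exp_mul]; ring_nf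
  have e2 : (1 / 17 : ℝ) ^ s * ((eps ^ 2 / 784) ^ s) ^ L.length
      = ((eps ^ 2 / 784) ^ L.length / 17) ^ s := by
    rw [← Real.rpow_natCast ((eps ^ 2 / 784) ^ s), ← Real.rpow_mul (by positivity), mul_comm s,
      Real.rpow_mul (by positivity), ← Real.mul_rpow (by norm_num) (by positivity),
      Real.rpow_natCast]
    congr 1; ring
  rw [e1, e2]
  apply Real.rpow_le_rpow (by positivity) _ s0.le
  exact le_trans (div_le_div_of_nonneg_right h2 (by norm_num)) h3

end E1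

/-- E1: divergence for `λ = 1` up to exponent `1/51`. -/
theorem diverge {c ρ : ℕ → ℝ} (hs : Start c ρ) (hc0 : c 0 = 0) (hρ0 : ρ 0 = 1)
    {s : ℝ} (s0 : 0 < s) (s1 : s ≤ 1 / 51) :
    ¬ Summable (fun l : {l : List ℕ // Reduced l} =>
      Real.exp (-s * dist I (word c ρ l.1 • I))) := by
  intro hS
  set f : (Σ n, (Fin n → Bool × Bool)) → ℝ := fun q =>
    Real.exp (-s * dist I (word c ρ (E1.enc 1 (List.ofFn q.2)) • I)) with hf
  have hS2 : Summable f := by
    have hinj : Function.Injective (fun q : (Σ n, (Fin n → Bool × Bool)) =>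
        (⟨E1.enc 1 (List.ofFn q.2), E1.enc_reduced (Or.inl rfl) _⟩ : {l : List ℕ // Reduced l})) := by
      intro q q' h
      have h1 := E1.enc_inj (Subtype.ext_iff.mp h)
      exact List.equivSigmaTuple.symm.injective h1
    have h := hS.comp_injective hinj
    simp only [Function.comp_def] at h
    exact h
  have hnn : ∀ q, 0 ≤ f q := fun q => (Real.exp_pos _).le
  obtain ⟨-, hS3⟩ := (summable_sigma_of_nonneg hnn).1 hS2
  have hlow : ∀ n, (1 / 17 : ℝ) ^ s ≤ ∑' y, f ⟨n, y⟩ := by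
    intro n
    rw [tsum_fintype]
    have h1 : ∀ y : Fin n → Bool × Bool,
        (1 / 17 : ℝ) ^ s * ((eps ^ 2 / 784) ^ s) ^ n ≤ f ⟨n, y⟩ := by
      intro y
      have := E1.term_lower hs hc0 hρ0 s0 (List.ofFn y)
      rwa [List.length_ofFn] at this
    have h2 : ∑ _y : Fin n → Bool × Bool, ((1 / 17 : ℝ) ^ s * ((eps ^ 2 / 784) ^ s) ^ n)
        ≤ ∑ y, f ⟨n, y⟩ := Finset.sum_le_sum fun y _ => h1 y
    refine le_trans ?_ h2
    rw [Finset.sum_const, Finset.card_univ]
    have hcard : Fintype.card (Fin n → Bool × Bool) = 4 ^ n := by simp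
    rw [hcard, nsmul_eq_mul]
    push_cast
    have h3 : (1 : ℝ) ≤ (4 * (eps ^ 2 / 784) ^ s) ^ n := one_le_pow₀ (E1.num' s0 s1)
    rw [mul_pow] at h3
    have h4 : (0 : ℝ) < (1 / 17) ^ s := by positivity
    nlinarith
  have h0 := hS3.tendsto_atTop_zero
  have h1 : (0 : ℝ) < (1 / 17) ^ s := by positivity
  have h2 := ge_of_tendsto' h0 hlow
  linarith

end H892R2.Fuchs
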