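import Pool.Agent.H892R2.Fuchs.Defs

open UpperHalfPlane Matrix MatrixGroups Filter Topology

namespace H892R2.Fuchs

namespace E3

/-- dependent choice along `ℕ` with access to all earlier values -/
theorem strong_seq {α : Type*} [Inhabited α] (Q : ℕ → (ℕ → α) → α → Prop)
    (hQ : ∀ n f g a, (∀ m < n, f m = g m) → Q n f a → Q n g a)
    (h : ∀ n f, (∀ m < n, Q m f (f m)) → ∃ a, Q n f a) :
    ∃ f : ℕ → α, ∀ n, Q n f (f n) := by
  classical
  let F : ℕ → (ℕ → α) := fun n => Nat.rec (fun _ => default)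
    (fun n f => Function.update f n (if h : ∃ a, Q n f a then h.choose else default)) n
  have F1 : ∀ n, F (n + 1) = Function.update (F n) n
      (if h : ∃ a, Q n (F n) a then h.choose else default) := fun n => rfl
  have F2 : ∀ n m, m < n → F n m = F (m + 1) m := by
    intro n
    induction n with
    | zero => intro m hm; omega
    | succ n ih =>
      intro m hm
      rcases Nat.lt_succ_iff_lt_or_eq.1 hm with h1 | h1
      · rw [F1, Function.update_of_ne h1.ne, ih m h1]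
      · rw [h1]
  have F3 : ∀ n, (∀ m < n, Q m (F n) (F n m)) := by
    intro n
    induction n with
    | zero => intro m hm; omega
    | succ n ih =>
      intro m hm
      have hag : ∀ k < n, F n k = F (n + 1) k := by
        intro k hk
        rw [F2 n k hk, F2 (n + 1) k (by omega)]
      rcases Nat.lt_succ_iff_lt_or_eq.1 hm with h1 | h1
      · have := ih m h1
        rw [hag m h1] at this
        exact hQ m _ _ _ (fun k hk => hag k (by omega)) this
      · subst h1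
        have hex := h m (F m) ih
        have h2 : F (m + 1) m = hex.choose := by
          rw [F1, Function.update_self, dif_pos hex]
        rw [h2]
        exact hQ m _ _ _ hag hex.choose_spec
  refine ⟨fun m => F (m + 1) m, fun n => ?_⟩
  refine hQ n (F (n + 1)) _ _ ?_ (F3 (n + 1) n (by omega))
  intro m hm
  exact F2 (n + 1) m (by omega)

/-- the data attached to one half-turn -/
structure Dat where
  c : ℝ
  ρ : ℝ
  x : ℝ
  y : ℝ

noncomputable instance : Inhabited Dat := ⟨⟨0, 0, 0, 0⟩⟩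

noncomputable def bb (n : ℕ) : ℝ := (1 / 2 : ℝ) ^ (52 * (n + 1))

theorem bb_pos (n : ℕ) : 0 < bb n := by unfold bb; positivity

theorem bb_le (n : ℕ) : bb n ≤ 1 := by
  unfold bb; exact pow_le_one₀ (by norm_num) (by norm_num)

/-- relation of a new disc `a` with an old disc `b` -/
structure Rel (b a : Dat) : Prop where
  sep : a.ρ ^ 2 + b.ρ ^ 2 + 4 * a.ρ * b.ρ ≤ (a.c - b.c) ^ 2
  yy : 1 ≤ b.x * a.y
  rr : a.ρ ^ 2 ≤ a.x * b.y * (|a.c - b.c| - b.ρ) ^ 2

/-- the requirements on a new disc -/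
structure New (q : ℝ) (n : ℕ) (f : ℕ → Dat) (a : Dat) : Prop where
  cpos : 0 < a.c
  ρpos : 0 < a.ρ
  xpos : 0 < a.x
  y1 : 1 ≤ a.y
  xy : a.x * a.y = bb n
  two : 2 * a.ρ ≤ a.c
  ρx : a.ρ ^ 2 ≤ a.x
  rel : ∀ m < n, m ≠ 0 → Rel (f m) a
  y0 : 4 * (f 0).ρ ^ 2 ≤ (f 0).x * a.y * a.c ^ 2
  r0 : a.ρ ^ 2 ≤ a.x * (f 0).y * a.c ^ 2
  den : 0 < q → |q - a.c| ≤ a.ρ ∨ ∃ m < n, m ≠ 0 ∧ |q - (f m).c| ≤ (f m).ρ

theorem exists_new (q : ℝ) (n : ℕ) (hn : 0 < n) (f : ℕ → Dat)
    (hx : ∀ m < n, 0 < (f m).x) (hy : ∀ m < n, 0 < (f m).y)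
    (hρ : ∀ m < n, 0 < (f m).ρ) : ∃ a, New q n f a := by
  classical
  -- choose c
  obtain ⟨c, hc0, hc1, hc2⟩ : ∃ c : ℝ, 0 < c ∧ (∀ m < n, m ≠ 0 → (f m).ρ < |c - (f m).c|) ∧
      (0 < q → |q - c| ≤ 0 ∨ ∃ m < n, m ≠ 0 ∧ |q - (f m).c| ≤ (f m).ρ) := by
    by_cases hq : 0 < q ∧ ∀ m < n, m ≠ 0 → (f m).ρ < |q - (f m).c|
    · exact ⟨q, hq.1, hq.2, fun _ => Or.inl (by simp)⟩
    · have h1 : ∀ᶠ c : ℝ in atTop, 0 < c ∧ ∀ m ∈ Finset.range n, (f m).c + (f m).ρ < c := by
        refine (eventually_gt_atTop 0).and ?_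
        rw [Filter.eventually_all_finset]
        intro m _
        exact eventually_gt_atTop _
      obtain ⟨c, h0, h2⟩ := h1.exists
      refine ⟨c, h0, ?_, ?_⟩
      · intro m hm _
        have := h2 m (Finset.mem_range.2 hm)
        have h3 := le_abs_self (c - (f m).c)
        linarith
      · intro hq0
        right
        by_contra hcon
        push Not at hcon
        exact hq ⟨hq0, hcon⟩
  -- choose y
  have h0x := hx 0 hn
  have h0y := hy 0 hn
  obtain ⟨y, hy1, hy2, hy3⟩ : ∃ y : ℝ, 1 ≤ y ∧ (∀ m ∈ Finset.range n, 1 ≤ (f m).x * y) ∧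
      4 * (f 0).ρ ^ 2 ≤ (f 0).x * y * c ^ 2 := by
    have h1 : ∀ᶠ y : ℝ in atTop, 1 ≤ y ∧ (∀ m ∈ Finset.range n, 1 ≤ (f m).x * y) ∧
      4 * (f 0).ρ ^ 2 ≤ (f 0).x * y * c ^ 2 := by
      refine (eventually_ge_atTop 1).and (Filter.Eventually.and ?_ ?_)
      · rw [Filter.eventually_all_finset]
        intro m hm
        have hxm := hx m (Finset.mem_range.1 hm)
        filter_upwards [eventually_ge_atTop (1 / (f m).x)] with y hy
        rw [div_le_iff₀ hxm] at hy
        linarith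
      · filter_upwards [eventually_ge_atTop (4 * (f 0).ρ ^ 2 / ((f 0).x * c ^ 2))] with y hy
        rw [div_le_iff₀ (by positivity)] at hy
        nlinarith
    exact h1.exists
  have hy0 : 0 < y := by linarith
  obtain ⟨x, hxdef⟩ : ∃ x : ℝ, x = bb n / y := ⟨_, rfl⟩
  have hx0 : 0 < x := by rw [hxdef]; exact div_pos (bb_pos n) hy0
  -- choose ρ
  obtain ⟨ρ, hρ0, hρ1, hρ2, hρ3, hρ4, hρ5⟩ : ∃ ρ : ℝ, 0 < ρ ∧ 2 * ρ < c ∧ ρ ^ 2 < x ∧
      (∀ m ∈ Finset.range n, m ≠ 0 → ρ ^ 2 + (f m).ρ ^ 2 + 4 * ρ * (f m).ρ < (c - (f m).c) ^ 2) ∧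
      (∀ m ∈ Finset.range n, m ≠ 0 → ρ ^ 2 < x * (f m).y * (|c - (f m).c| - (f m).ρ) ^ 2) ∧
      ρ ^ 2 < x * (f 0).y * c ^ 2 := by
    have key : ∀ (g : ℝ → ℝ) (b : ℝ), Continuous g → g 0 < b → ∀ᶠ ρ in 𝓝[>] (0 : ℝ), g ρ < b := by
      intro g b hg hb
      exact (hg.continuousAt.tendsto.mono_left nhdsWithin_le_nhds).eventually_lt_const hb
    have keysq : ∀ b : ℝ, 0 < b → ∀ᶠ ρ in 𝓝[>] (0 : ℝ), ρ ^ 2 < b := by
      intro b hb
      exact key (fun ρ => ρ ^ 2) b (by fun_prop) (by simpa using hb)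
    have h1 : ∀ᶠ ρ in 𝓝[>] (0 : ℝ), 0 < ρ ∧ 2 * ρ < c ∧ ρ ^ 2 < x ∧
      (∀ m ∈ Finset.range n, m ≠ 0 → ρ ^ 2 + (f m).ρ ^ 2 + 4 * ρ * (f m).ρ < (c - (f m).c) ^ 2) ∧
      (∀ m ∈ Finset.range n, m ≠ 0 → ρ ^ 2 < x * (f m).y * (|c - (f m).c| - (f m).ρ) ^ 2) ∧
      ρ ^ 2 < x * (f 0).y * c ^ 2 := by
      refine Filter.Eventually.and self_mem_nhdsWithin (Filter.Eventually.and ?_
        (Filter.Eventually.and ?_ (Filter.Eventually.and ?_ (Filter.Eventually.and ?_ ?_))))
      · exact key (fun ρ => 2 * ρ) c (by fun_prop) (by simpa using hc0)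
      · exact key (fun ρ => ρ ^ 2) x (by fun_prop) (by simpa using hx0)
      · rw [Filter.eventually_all_finset]
        intro m hm
        by_cases hm0 : m = 0
        · exact Filter.Eventually.of_forall (fun ρ h => absurd hm0 h)
        · have h2 := hc1 m (Finset.mem_range.1 hm) hm0
          have h3 := hρ m (Finset.mem_range.1 hm)
          have h4 : (fun ρ : ℝ => ρ ^ 2 + (f m).ρ ^ 2 + 4 * ρ * (f m).ρ) 0 < (c - (f m).c) ^ 2 := by
            simp only
            rw [← sq_abs (c - (f m).c)]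
            nlinarith
          filter_upwards [key (fun ρ : ℝ => ρ ^ 2 + (f m).ρ ^ 2 + 4 * ρ * (f m).ρ) _
            (by fun_prop) h4] with ρ hρ' _ using hρ'
      · rw [Filter.eventually_all_finset]
        intro m hm
        by_cases hm0 : m = 0
        · exact Filter.Eventually.of_forall (fun ρ h => absurd hm0 h)
        · have h2 := hc1 m (Finset.mem_range.1 hm) hm0
          have h3 := hy m (Finset.mem_range.1 hm)
          have h5 : 0 < |c - (f m).c| - (f m).ρ := by linarith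
          have h6 : 0 < x * (f m).y * (|c - (f m).c| - (f m).ρ) ^ 2 := by positivity
          filter_upwards [keysq _ h6] with ρ hρ' _ using hρ'
      · exact keysq _ (by positivity)
    exact h1.exists
  refine ⟨⟨c, ρ, x, y⟩, ⟨hc0, hρ0, hx0, hy1, ?_, hρ1.le, hρ2.le, ?_, hy3, hρ5.le, ?_⟩⟩
  · simp only [hxdef]
    field_simp
  · intro m hm hm0
    have hmr := Finset.mem_range.2 hm
    exact ⟨(hρ3 m hmr hm0).le, hy2 m hmr, (hρ4 m hmr hm0).le⟩
  · intro hq
    rcases hc2 hq with h | h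
    · left
      simp only
      linarith
    · right; exact h

/-- the specification of the sequence -/
def Spec (qs : ℕ → ℝ) (n : ℕ) (f : ℕ → Dat) (a : Dat) : Prop :=
  (n = 0 → a = ⟨0, lam, 2 * lam ^ 2 / eps, 2 * eps⟩) ∧
  (0 < n → n < 4 → a = ⟨n, eps, 2 * eps, 2 * eps⟩) ∧
  (4 ≤ n → New (qs n) n f a)

theorem eps_pos : 0 < eps := by unfold eps; positivity
theorem lam_pos : 0 < lam := by unfold lam; positivity
theorem eps_le : eps ≤ 1 / 10 := by unfold eps; norm_num

theorem spec_pos {qs : ℕ → ℝ} {n : ℕ} {f : ℕ → Dat} {a : Dat} (h : Spec qs n f a) :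
    0 < a.x ∧ 0 < a.y ∧ 0 < a.ρ := by
  have he := eps_pos
  have hl := lam_pos
  rcases Nat.eq_zero_or_pos n with h0 | h0
  · rw [h.1 h0]; refine ⟨?_, ?_, ?_⟩ <;> simp only <;> positivity
  · rcases Nat.lt_or_ge n 4 with h4 | h4
    · rw [h.2.1 h0 h4]; refine ⟨?_, ?_, ?_⟩ <;> simp only <;> positivity
    · have h5 := h.2.2 h4
      exact ⟨h5.xpos, by linarith [h5.y1], h5.ρpos⟩

theorem exists_seq (qs : ℕ → ℝ) : ∃ f : ℕ → Dat, ∀ n, Spec qs n f (f n) := by
  apply strong_seq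
  · intro n f g a hfg h
    refine ⟨h.1, h.2.1, fun h4 => ?_⟩
    have h5 := h.2.2 h4
    have h0 : f 0 = g 0 := hfg 0 (by omega)
    refine ⟨h5.cpos, h5.ρpos, h5.xpos, h5.y1, h5.xy, h5.two, h5.ρx, ?_, ?_, ?_, ?_⟩
    · intro m hm hm0
      rw [← hfg m hm]; exact h5.rel m hm hm0
    · rw [← h0]; exact h5.y0
    · rw [← h0]; exact h5.r0
    · intro hq
      rcases h5.den hq with h6 | ⟨m, hm, hm0, h6⟩
      · exact Or.inl h6
      · exact Or.inr ⟨m, hm, hm0, by rw [← hfg m hm]; exact h6⟩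
  · intro n f hf
    rcases Nat.eq_zero_or_pos n with h0 | h0
    · exact ⟨_, fun _ => rfl, fun h => absurd h (by omega), fun h => absurd h (by omega)⟩
    · rcases Nat.lt_or_ge n 4 with h4 | h4
      · exact ⟨_, fun h => absurd h (by omega), fun _ _ => rfl, fun h => absurd h (by omega)⟩
      · obtain ⟨a, ha⟩ := exists_new (qs n) n h0 f (fun m hm => (spec_pos (hf m hm)).1)
          (fun m hm => (spec_pos (hf m hm)).2.1) (fun m hm => (spec_pos (hf m hm)).2.2)
        exact ⟨a, fun h => absurd h (by omega), fun _ h => absurd h (by omega), fun _ => ha⟩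

/-- distance estimate -/
theorem nsq_ge {z : ℍ} {c d ρ : ℝ} (hρ : 0 ≤ ρ) (h : nsq z c ≤ ρ ^ 2) (hd : ρ ≤ |d - c|) :
    (|d - c| - ρ) ^ 2 ≤ nsq z d := by
  have h0 := z.im_pos
  unfold nsq at *
  set u := z.re - c with hu
  set v := z.im with hv
  set r := Real.sqrt (u ^ 2 + v ^ 2) with hr
  have hr0 : 0 ≤ r := Real.sqrt_nonneg _
  have hr2 : r ^ 2 = u ^ 2 + v ^ 2 := Real.sq_sqrt (by positivity)
  have hrρ : r ≤ ρ := by
    rw [hr]; exact Real.sqrt_le_iff.2 ⟨hρ, h⟩
  have hur : |u| ≤ r := by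
    rw [← Real.sqrt_sq_eq_abs]
    exact Real.sqrt_le_sqrt (by nlinarith)
  have h1 : z.re - d = u - (d - c) := by rw [hu]; ring
  rw [h1]
  have h2 : (u - (d - c)) ^ 2 + v ^ 2 = r ^ 2 - 2 * (u * (d - c)) + |d - c| ^ 2 := by
    rw [hr2, sq_abs]; ring
  rw [h2]
  have h3 : u * (d - c) ≤ r * |d - c| := by
    calc u * (d - c) ≤ |u * (d - c)| := le_abs_self _
      _ = |u| * |d - c| := abs_mul _ _
      _ ≤ r * |d - c| := mul_le_mul_of_nonneg_right hur (abs_nonneg _)
  have h4 : 0 ≤ |d - c| - ρ := by linarith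
  nlinarith

theorem nsq_ge0 {z : ℍ} {d : ℝ} (hz : z.re ≤ 0) (hd : 0 ≤ d) : d ^ 2 ≤ nsq z d := by
  have h0 := z.im_pos
  unfold nsq
  nlinarith

/-- an enumeration of the rationals -/
noncomputable def qs (n : ℕ) : ℝ := ((Encodable.decode (α := ℚ) (n - 4)).getD 0 : ℚ)

theorem qs_encode (q : ℚ) : qs (Encodable.encode q + 4) = q := by
  unfold qs
  simp [Encodable.encodek]

theorem sig_le {c ρ : ℕ → ℝ} {m : ℕ} (hm : m ≠ 0) (hρ : 0 < ρ m) {z : ℍ}
    (h : sig c ρ m z ≤ 0) : nsq z (c m) ≤ ρ m ^ 2 := by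
  unfold sig at h
  rw [if_neg hm] at h
  have h0 := z.im_pos
  by_contra hcon
  push Not at hcon
  have : 0 < (nsq z (c m) - ρ m ^ 2) / (2 * ρ m * z.im) := by
    apply div_pos <;> [linarith; positivity]
  linarith

theorem sig_zero {c ρ : ℕ → ℝ} {z : ℍ} (h : sig c ρ 0 z ≤ 0) : z.re ≤ 0 := by
  unfold sig at h
  rw [if_pos rfl] at h
  have h0 := z.im_pos
  by_contra hcon
  push Not at hcon
  have : 0 < z.re / z.im := div_pos hcon h0
  linarith

theorem rpow_aux (a : ℝ) (ha : 0 ≤ a) (k : ℕ) : (a ^ (52 * k)) ^ (1 / 52 : ℝ) = a ^ k := by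
  rw [pow_mul', ← Real.rpow_natCast (a ^ k) 52, ← Real.rpow_mul (by positivity)]
  norm_num

end E3

open E3 in
/-- E3: the sequence. -/
theorem exists_data : ∃ c ρ x y : ℕ → ℝ, Geo c ρ ∧ Start c ρ ∧ ρ 0 = lam ∧ Weights c ρ x y := by
  obtain ⟨f, hf⟩ := exists_seq qs
  have he := eps_pos
  have hl := lam_pos
  have he1 := eps_le
  have h0 : f 0 = ⟨0, lam, 2 * lam ^ 2 / eps, 2 * eps⟩ := (hf 0).1 rfl
  have h1 : f 1 = ⟨1, eps, 2 * eps, 2 * eps⟩ := by
    simpa using (hf 1).2.1 (by norm_num) (by norm_num)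
  have h2 : f 2 = ⟨2, eps, 2 * eps, 2 * eps⟩ := by
    simpa using (hf 2).2.1 (by norm_num) (by norm_num)
  have h3 : f 3 = ⟨3, eps, 2 * eps, 2 * eps⟩ := by
    simpa using (hf 3).2.1 (by norm_num) (by norm_num)
  have h123 : ∀ n, 0 < n → n < 4 → f n = ⟨n, eps, 2 * eps, 2 * eps⟩ :=
    fun n a b => (hf n).2.1 a b
  have hN : ∀ n, 4 ≤ n → New (qs n) n f (f n) := fun n h => (hf n).2.2 h
  have hpos : ∀ n, 0 < (f n).x ∧ 0 < (f n).y ∧ 0 < (f n).ρ := fun n => spec_pos (hf n)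
  have hcpos : ∀ n, n ≠ 0 → 0 < (f n).c := by
    intro n hn
    rcases Nat.lt_or_ge n 4 with h4 | h4
    · rw [h123 n (by omega) h4]; simp only; exact_mod_cast Nat.pos_of_ne_zero hn
    · exact (hN n h4).cpos
  have htwo : ∀ n, n ≠ 0 → 2 * (f n).ρ ≤ (f n).c := by
    intro n hn
    rcases Nat.lt_or_ge n 4 with h4 | h4
    · rw [h123 n (by omega) h4]; simp only
      have : (1 : ℝ) ≤ n := by exact_mod_cast Nat.pos_of_ne_zero hn
      linarith
    · exact (hN n h4).two
  have hsep0 : ∀ n m, m < n → m ≠ 0 →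
      (f n).ρ ^ 2 + (f m).ρ ^ 2 + 4 * (f n).ρ * (f m).ρ ≤ ((f n).c - (f m).c) ^ 2 := by
    intro n m hmn hm
    rcases Nat.lt_or_ge n 4 with h4 | h4
    · rw [h123 n (by omega) h4, h123 m (by omega) (by omega)]; simp only
      have : (1 : ℝ) ≤ (n : ℝ) - m := by
        have : (m : ℝ) + 1 ≤ n := by exact_mod_cast hmn
        linarith
      nlinarith
    · exact ((hN n h4).rel m hmn hm).sep
  have hsep : ∀ n m, n ≠ 0 → m ≠ 0 → n ≠ m →
      (f n).ρ ^ 2 + (f m).ρ ^ 2 + 4 * (f n).ρ * (f m).ρ ≤ ((f n).c - (f m).c) ^ 2 := by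
    intro n m hn hm hnm
    rcases Nat.lt_or_gt_of_ne hnm with h | h
    · have := hsep0 m n h hn
      nlinarith
    · exact hsep0 n m h hm
  have hdist : ∀ n m, n ≠ 0 → m ≠ 0 → n ≠ m → (f n).ρ + (f m).ρ ≤ |(f n).c - (f m).c| := by
    intro n m hn hm hnm
    have h4 := hsep n m hn hm hnm
    have hp := (hpos n).2.2
    have hp' := (hpos m).2.2
    apply abs_le_of_sq_le_sq' _ (abs_nonneg _) |>.2
    rw [sq_abs]
    nlinarith [mul_pos hp hp']
  have hcross : ∀ n m, n ≠ m → ∀ z : ℍ, sig (fun n => (f n).c) (fun n => (f n).ρ) m z ≤ 0 →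
      (f n).ρ ^ 2 ≤ (f n).x * (f m).y * nsq z (f n).c := by
    intro n m hnm z hz
    rcases Nat.eq_zero_or_pos m with hm | hm
    · -- the half-plane
      subst hm
      have hz' := sig_zero hz
      have hn : n ≠ 0 := hnm
      have hd := nsq_ge0 hz' (hcpos n hn).le
      rcases Nat.lt_or_ge n 4 with h4 | h4
      · rw [h0]
        rw [h123 n (by omega) h4] at hd ⊢
        simp only at hd ⊢
        have h5 : (1 : ℝ) ≤ n := by exact_mod_cast Nat.pos_of_ne_zero hn
        have h6 : (1 : ℝ) ≤ nsq z n := by nlinarith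
        nlinarith [mul_pos he he]
      · have h5 := (hN n h4).r0
        have h6 : 0 < (f n).x * (f 0).y := mul_pos (hpos n).1 (hpos 0).2.1
        nlinarith
    · have hm0 : m ≠ 0 := by omega
      have hz' := sig_le (c := fun n => (f n).c) (ρ := fun n => (f n).ρ) hm0 (hpos m).2.2 hz
      rcases Nat.eq_zero_or_pos n with hn | hn
      · -- `n = 0`
        subst hn
        have h4 := htwo m hm0
        have h5 := hcpos m hm0
        have hp' := (hpos m).2.2
        have h6 : (f 0).c = 0 := by rw [h0]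
        have h7 := nsq_ge (z := z) (c := (f m).c) (d := (f 0).c) hp'.le hz' (by
          rw [h6, zero_sub, abs_neg, abs_of_pos h5]; linarith)
        rw [h6, zero_sub, abs_neg, abs_of_pos h5] at h7
        have h8 : ((f m).c) ^ 2 ≤ 4 * nsq z (f 0).c := by
          rw [h6]; nlinarith
        rcases Nat.lt_or_ge m 4 with h9 | h9
        · rw [h0] at h8 ⊢
          rw [h123 m (by omega) h9] at h8 ⊢
          simp only at h8 ⊢
          have h10 : (1 : ℝ) ≤ m := by exact_mod_cast hm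
          have h11 : 2 * lam ^ 2 / eps * (2 * eps) = 4 * lam ^ 2 := by field_simp; ring
          rw [h11]
          have h12 : (1 : ℝ) ≤ 4 * nsq z 0 := by nlinarith
          nlinarith [mul_pos hl hl]
        · have h10 := (hN m h9).y0
          have h11 : 0 < (f 0).x * (f m).y := mul_pos (hpos 0).1 (hpos m).2.1
          nlinarith
      · have hn0 : n ≠ 0 := by omega
        have hp := (hpos n).2.2
        have hp' := (hpos m).2.2
        have h4 := hdist n m hn0 hm0 hnm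
        have h5 := nsq_ge (z := z) (c := (f m).c) (d := (f n).c) hp'.le hz' (by linarith)
        have h6 : (f n).ρ ^ 2 ≤ nsq z (f n).c := by nlinarith
        have hxy : 0 < (f n).x * (f m).y := mul_pos (hpos n).1 (hpos m).2.1
        rcases Nat.lt_or_gt_of_ne hnm with h | h
        · -- `n < m`
          rcases Nat.lt_or_ge m 4 with h9 | h9
          · rw [h123 n hn (by omega)] at h5 ⊢
            rw [h123 m hm h9] at h5 ⊢
            simp only at h5 ⊢
            have h10 : (1 : ℝ) ≤ |(n : ℝ) - m| := by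
              have : (n : ℝ) + 1 ≤ m := by exact_mod_cast h
              rw [abs_of_nonpos (by linarith)]; linarith
            have h11 : (1 / 2 : ℝ) ≤ |(n : ℝ) - m| - eps := by linarith
            have h12 : (1 : ℝ) ≤ 4 * nsq z n := by nlinarith
            nlinarith [mul_pos he he]
          · have h10 := ((hN m h9).rel n h hn0).yy
            have h11 : 0 ≤ nsq z (f n).c := (nsq_pos _ _).le
            nlinarith
        · rcases Nat.lt_or_ge n 4 with h9 | h9
          · rw [h123 n hn (by omega)] at h5 ⊢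
            rw [h123 m hm (by omega)] at h5 ⊢
            simp only at h5 ⊢
            have h10 : (1 : ℝ) ≤ |(n : ℝ) - m| := by
              have : (m : ℝ) + 1 ≤ n := by exact_mod_cast h
              rw [abs_of_nonneg (by linarith)]; linarith
            have h11 : (1 / 2 : ℝ) ≤ |(n : ℝ) - m| - eps := by linarith
            have h12 : (1 : ℝ) ≤ 4 * nsq z n := by nlinarith
            nlinarith [mul_pos he he]
          · have h10 := ((hN n h9).rel m h hm0).rr
            nlinarith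
  have hbase : ∀ n, (f n).ρ ^ 2 ≤ (f n).x * nsq I (f n).c := by
    intro n
    have hI : 1 ≤ nsq I (f n).c := by
      unfold nsq
      have : (I : ℍ).im = 1 := UpperHalfPlane.I_im
      rw [this]; nlinarith [sq_nonneg ((I : ℍ).re - (f n).c)]
    have hxp := (hpos n).1
    suffices h : (f n).ρ ^ 2 ≤ (f n).x by nlinarith
    rcases Nat.eq_zero_or_pos n with hn | hn
    · rw [hn, h0]; simp only
      rw [le_div_iff₀ he]
      nlinarith [mul_pos hl hl]
    · rcases Nat.lt_or_ge n 4 with h9 | h9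
      · rw [h123 n hn h9]; simp only
        nlinarith
      · exact (hN n h9).ρx
  have hbx : ∀ n, (f (n + 4)).x ≤ bb (n + 4) := by
    intro n
    have h5 := (hN (n + 4) (by omega)).y1
    have h6 := (hN (n + 4) (by omega)).xy
    have h7 := (hpos (n + 4)).1
    nlinarith
  have hbbr : ∀ n, (bb n) ^ (1 / 52 : ℝ) = (1 / 2) ^ (n + 1) := by
    intro n
    unfold bb
    exact rpow_aux _ (by norm_num) _
  have hgeo : Summable (fun n : ℕ => (1 / 2 : ℝ) ^ (n + 4 + 1)) := by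
    have := (summable_geometric_of_lt_one (r := (1 / 2 : ℝ)) (by norm_num) (by norm_num)).mul_right
      ((1 / 2 : ℝ) ^ 5)
    refine this.congr (fun n => ?_)
    rw [← pow_add]
  have hsumx : Summable (fun n => (f n).x ^ (1 / 52 : ℝ)) := by
    rw [← summable_nat_add_iff 4]
    refine Summable.of_nonneg_of_le (fun n => Real.rpow_nonneg (hpos _).1.le _) (fun n => ?_) hgeo
    rw [← hbbr]
    exact Real.rpow_le_rpow (hpos _).1.le (hbx n) (by norm_num)
  have hxyb : ∀ n, ((f (n + 4)).x * (f (n + 4)).y) ^ (1 / 52 : ℝ) = (1 / 2) ^ (n + 4 + 1) := by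
    intro n
    rw [(hN (n + 4) (by omega)).xy, hbbr]
  have hsumb : Summable (fun n => ((f n).x * (f n).y) ^ (1 / 52 : ℝ)) := by
    rw [← summable_nat_add_iff 4]
    exact hgeo.congr (fun n => (hxyb n).symm)
  have ht0 : ((f 0).x * (f 0).y) ^ (1 / 52 : ℝ) = 1 / 100 := by
    rw [h0]; simp only
    have h11 : 2 * lam ^ 2 / eps * (2 * eps) = 4 * lam ^ 2 := by field_simp; ring
    have h12 : 4 * lam ^ 2 = (1 / 100 : ℝ) ^ (52 * 1) := by unfold lam; norm_num
    rw [h11, h12, rpow_aux _ (by norm_num)]; norm_num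
  have ht1 : (2 * eps * (2 * eps)) ^ (1 / 52 : ℝ) = 3 / 10 := by
    have h12 : 2 * eps * (2 * eps) = (3 / 10 : ℝ) ^ (52 * 1) := by unfold eps; norm_num
    rw [h12, rpow_aux _ (by norm_num)]; norm_num
  have hlt : ∑' n, ((f n).x * (f n).y) ^ (1 / 52 : ℝ) < 1 := by
    rw [← hsumb.sum_add_tsum_nat_add 4]
    have h5 : ∑' n, ((f (n + 4)).x * (f (n + 4)).y) ^ (1 / 52 : ℝ) = 1 / 16 := by
      rw [tsum_congr hxyb]
      have : ∀ n : ℕ, (1 / 2 : ℝ) ^ (n + 4 + 1) = (1 / 2) ^ n * (1 / 2) ^ 5 := by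
        intro n; rw [← pow_add]
      rw [tsum_congr this, tsum_mul_right, tsum_geometric_of_lt_one (by norm_num) (by norm_num)]
      norm_num
    rw [h5]
    simp only [Finset.sum_range_succ, Finset.sum_range_zero, ht0]
    rw [h1, h2, h3]
    simp only [ht1]
    norm_num
  refine ⟨fun n => (f n).c, fun n => (f n).ρ, fun n => (f n).x, fun n => (f n).y,
    ⟨by simp [h0], fun n => (hpos n).2.2, htwo, hsep, ?_⟩,
    ⟨by simp [h1], by simp [h2], by simp [h3], by simp [h1], by simp [h2], by simp [h3]⟩,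
    by simp [h0],
    ⟨fun n => (hpos n).1, fun n => (hpos n).2.1, hcross, hbase, hsumx, hsumb, hlt⟩⟩
  intro a b ha hab
  obtain ⟨q, hq1, hq2⟩ := exists_rat_btwn hab
  have hq0 : (0 : ℝ) < q := by linarith
  have h5 := (hN (Encodable.encode q + 4) (by omega)).den
  rw [qs_encode] at h5
  rcases h5 hq0 with h6 | ⟨m, _, hm0, h6⟩
  · exact ⟨_, by omega, q, hq1, hq2, h6⟩
  · exact ⟨m, hm0, q, hq1, hq2, h6⟩

end H892R2.Fuchs
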