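import Pool.Agent.H892R2.Fuchs.GeoSys

open UpperHalfPlane Matrix MatrixGroups

namespace H892R2.Fuchs

namespace FK

/-- the quadratic form of a half-plane -/
noncomputable def qf (α β γ : ℝ) (z : ℍ) : ℝ := α * (z.re ^ 2 + z.im ^ 2) + β * z.re + γ

theorem qf_turn {c ρ : ℝ} (h : 0 < ρ) (α β γ : ℝ) (z : ℍ) :
    qf α β γ (turn c ρ • z) * nsq z c =
      qf (α * c ^ 2 + β * c + γ)
        (-2 * c * (α * c ^ 2 + β * c + γ) - 2 * c * ρ ^ 2 * α - β * ρ ^ 2)
        (c ^ 2 * (α * c ^ 2 + β * c + γ) + 2 * c ^ 2 * ρ ^ 2 * α + ρ ^ 4 * α + β * ρ ^ 2 * c) z := by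
  have h0 := nsq_pos z c
  have h1 : (turn c ρ • z : ℍ).re ^ 2 + (turn c ρ • z : ℍ).im ^ 2 =
      c ^ 2 - 2 * c * ρ ^ 2 * (z.re - c) / nsq z c + ρ ^ 4 / nsq z c := by
    have h2 : ρ ^ 4 / nsq z c = ρ ^ 4 * ((z.re - c) ^ 2 + z.im ^ 2) / (nsq z c) ^ 2 := by
      have : (z.re - c) ^ 2 + z.im ^ 2 = nsq z c := rfl
      rw [this]; field_simp
    rw [h2, turn_re h, turn_im h]
    field_simp
    ring
  unfold qf
  rw [h1, turn_re h]
  have h3 : (α * (c ^ 2 - 2 * c * ρ ^ 2 * (z.re - c) / nsq z c + ρ ^ 4 / nsq z c) +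
      β * (c - ρ ^ 2 * (z.re - c) / nsq z c) + γ) * nsq z c =
      α * (c ^ 2 * nsq z c - 2 * c * ρ ^ 2 * (z.re - c) + ρ ^ 4) +
      β * (c * nsq z c - ρ ^ 2 * (z.re - c)) + γ * nsq z c := by
    field_simp
  rw [h3]
  unfold nsq
  ring

theorem qf_disc {c ρ : ℝ} (hρ : 0 < ρ) {α β γ : ℝ}
    (hf : ∀ t, c - ρ ≤ t → t ≤ c + ρ → α * t ^ 2 + β * t + γ < 0) {w : ℍ}
    (hw : nsq w c ≤ ρ ^ 2) : qf α β γ w < 0 := by
  unfold nsq at hw
  have h0 := w.im_pos
  have hx : |w.re - c| ≤ ρ := abs_le_of_sq_le_sq (by nlinarith) hρ.le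
  obtain ⟨h1, h2⟩ := abs_le.1 hx
  unfold qf
  rcases le_or_gt α 0 with hα | hα
  · have := hf w.re (by linarith) (by linarith)
    nlinarith [sq_nonneg w.im]
  · have hl := hf (c - ρ) le_rfl (by linarith)
    have hr := hf (c + ρ) (by linarith) le_rfl
    have h3 : α * w.im ^ 2 ≤ α * (ρ ^ 2 - (w.re - c) ^ 2) :=
      mul_le_mul_of_nonneg_left (by linarith) hα.le
    -- the linear function
    have h4 : (2 * ρ) * (α * (ρ ^ 2 - c ^ 2 + 2 * c * w.re) + β * w.re + γ) < 0 := by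
      have e : (2 * ρ) * (α * (ρ ^ 2 - c ^ 2 + 2 * c * w.re) + β * w.re + γ) =
          (c + ρ - w.re) * (α * (c - ρ) ^ 2 + β * (c - ρ) + γ) +
          (w.re - (c - ρ)) * (α * (c + ρ) ^ 2 + β * (c + ρ) + γ) := by ring
      rw [e]
      have h5 : 0 ≤ c + ρ - w.re := by linarith
      have h6 : 0 ≤ w.re - (c - ρ) := by linarith
      rcases h5.eq_or_lt with h7 | h7
      · have h8 : 0 < w.re - (c - ρ) := by linarith
        nlinarith
      · nlinarith
    have h5 : α * (ρ ^ 2 - c ^ 2 + 2 * c * w.re) + β * w.re + γ < 0 := by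
      by_contra hcon
      push Not at hcon
      nlinarith
    nlinarith

section

variable {c ρ : ℕ → ℝ} (g : Geo c ρ)
include g

theorem disj {n m : ℕ} (hn : n ≠ 0) (hm : m ≠ 0) (hnm : n ≠ m) : ρ n + ρ m < |c n - c m| := by
  have h1 := g.sep n m hn hm hnm
  have h2 := g.ρpos n
  have h3 := g.ρpos m
  apply lt_of_pow_lt_pow_left₀ 2 (abs_nonneg _)
  rw [sq_abs]
  nlinarith [mul_pos h2 h3]

/-- a point of `I_m` to the right of `I_n` forces `I_m` to be to the right -/
theorem right_of {n m : ℕ} (hn : n ≠ 0) (hm : m ≠ 0) {q : ℝ} (hq : |q - c m| ≤ ρ m)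
    (h : c n + ρ n < q) : c n + ρ n < c m - ρ m := by
  have hnm : n ≠ m := by
    rintro rfl
    have := (abs_le.1 hq).2
    linarith
  have h1 := disj g hn hm hnm
  have h2 := g.ρpos n
  have h3 := g.ρpos m
  obtain ⟨h4, h5⟩ := abs_le.1 hq
  rcases le_total (c n) (c m) with h6 | h6
  · rw [abs_of_nonpos (by linarith)] at h1
    linarith
  · rw [abs_of_nonneg (by linarith)] at h1
    linarith

theorem left_of {n m : ℕ} (hn : n ≠ 0) (hm : m ≠ 0) {q : ℝ} (hq : |q - c m| ≤ ρ m)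
    (h : q < c n - ρ n) : c m + ρ m < c n - ρ n := by
  have hnm : n ≠ m := by
    rintro rfl
    have := (abs_le.1 hq).1
    linarith
  have h1 := disj g hn hm hnm
  have h2 := g.ρpos n
  have h3 := g.ρpos m
  obtain ⟨h4, h5⟩ := abs_le.1 hq
  rcases le_total (c n) (c m) with h6 | h6
  · rw [abs_of_nonpos (by linarith)] at h1
    linarith
  · rw [abs_of_nonneg (by linarith)] at h1
    linarith

/-- Lemma D -/
theorem exists_inside {a b : ℝ} (ha : 0 ≤ a) (hab : a < b)
    (hno : ∀ m, m ≠ 0 → ¬ (c m - ρ m ≤ a ∧ b ≤ c m + ρ m)) :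
    ∃ k, k ≠ 0 ∧ a < c k - ρ k ∧ c k + ρ k < b := by
  obtain ⟨m, hm, q, hq1, hq2, hq⟩ := g.dense a b ha hab
  obtain ⟨q3, q4⟩ := abs_le.1 hq
  by_cases h1 : a < c m - ρ m
  · by_cases h2 : c m + ρ m < b
    · exact ⟨m, hm, h1, h2⟩
    · -- case 2
      push Not at h2
      obtain ⟨m2, hm2, r, hr1, hr2, hr⟩ := g.dense a (c m - ρ m) ha h1
      have h3 := left_of g hm hm2 hr hr2
      by_cases h4 : a < c m2 - ρ m2
      · exact ⟨m2, hm2, h4, by linarith [g.ρpos m]⟩
      · push Not at h4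
        have h5 := g.ρpos m2
        have h5' := (abs_le.1 hr)
        obtain ⟨m3, hm3, s, hs1, hs2, hs⟩ := g.dense (c m2 + ρ m2) (c m - ρ m) (by linarith) h3
        have h6 := right_of g hm2 hm3 hs hs1
        have h7 := left_of g hm hm3 hs hs2
        exact ⟨m3, hm3, by linarith, by linarith [g.ρpos m]⟩
  · push Not at h1
    have h2 : c m + ρ m < b := by
      by_contra h2
      push Not at h2
      exact hno m hm ⟨h1, h2⟩
    obtain ⟨m2, hm2, r, hr1, hr2, hr⟩ := g.dense (c m + ρ m) b (by linarith) h2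
    have h3 := right_of g hm hm2 hr hr1
    by_cases h4 : c m2 + ρ m2 < b
    · exact ⟨m2, hm2, by linarith, h4⟩
    · push Not at h4
      have h5 := g.ρpos m2
      have h5' := (abs_le.1 hr)
      obtain ⟨m3, hm3, s, hs1, hs2, hs⟩ := g.dense (c m + ρ m) (c m2 - ρ m2) (by linarith) h3
      have h6 := right_of g hm hm3 hs hs1
      have h7 := left_of g hm2 hm3 hs hs2
      exact ⟨m3, hm3, by linarith, by linarith⟩

theorem exists_interval {α β γ : ℝ} {z : ℍ} (hz : ∀ n, 0 ≤ sig c ρ n z) (h : qf α β γ z < 0) :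
    ∃ a b : ℝ, 0 ≤ a ∧ a < b ∧ (∀ m, m ≠ 0 → ¬ (c m - ρ m ≤ a ∧ b ≤ c m + ρ m)) ∧
      ∀ t, a < t → t < b → α * t ^ 2 + β * t + γ < 0 := by
  have him := z.im_pos
  have hre : 0 ≤ z.re := by
    have h1 := hz 0
    rw [sig_zero] at h1
    by_contra hcon
    push Not at hcon
    have := div_neg_of_neg_of_pos hcon him
    linarith
  have hout : ∀ m, m ≠ 0 → ρ m ^ 2 ≤ nsq z (c m) := by
    intro m hm
    have h1 := hz m
    rw [sig_ne hm] at h1
    have h2 := g.ρpos m
    by_contra hcon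
    push Not at hcon
    have : (nsq z (c m) - ρ m ^ 2) / (2 * ρ m * z.im) < 0 :=
      div_neg_of_neg_of_pos (by linarith) (by positivity)
    linarith
  have hc : ∀ m, m ≠ 0 → 0 < c m - ρ m := by
    intro m hm
    have := g.two m hm
    have := g.ρpos m
    linarith
  unfold qf at h
  rcases lt_trichotomy α 0 with hα | hα | hα
  · -- `α < 0`
    set a : ℝ := max 0 ((|β| + |γ| + 1) / (-α) + 1) with ha
    have ha0 : 0 ≤ a := le_max_left _ _
    have ha1 : (|β| + |γ| + 1) / (-α) + 1 ≤ a := le_max_right _ _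
    refine ⟨a, 3 * a + 1, ha0, by linarith, ?_, ?_⟩
    · intro m hm ⟨h1, h2⟩
      have := g.two m hm
      have := hc m hm
      linarith
    · intro t ht _
      have hα' : 0 < -α := by linarith
      have h1 : (|β| + |γ| + 1) / (-α) + 1 < t := by linarith
      have h2 : 0 < (|β| + |γ| + 1) / (-α) := by positivity
      have ht1 : 1 < t := by linarith
      have h3 : (|β| + |γ| + 1) < t * (-α) := by
        rw [← div_lt_iff₀ hα']; linarith
      have h4 : (|β| + |γ| + 1) * t < t * (-α) * t := mul_lt_mul_of_pos_right h3 (by linarith)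
      have h5 : β * t ≤ |β| * t := mul_le_mul_of_nonneg_right (le_abs_self _) (by linarith)
      have h6 : γ ≤ |γ| * t := by
        have := le_abs_self γ
        have := abs_nonneg γ
        nlinarith
      nlinarith
  · subst hα
    rcases le_or_gt 0 β with hβ | hβ
    · have hγ : γ < 0 := by nlinarith
      refine ⟨0, -γ / (β + 1), le_rfl, by apply div_pos <;> linarith, ?_, ?_⟩
      · intro m hm ⟨h1, _⟩
        have := hc m hm
        linarith
      · intro t ht0 ht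
        rw [lt_div_iff₀ (by linarith)] at ht
        nlinarith
    · set a : ℝ := max 0 ((|γ| + 1) / (-β)) with ha
      have ha0 : 0 ≤ a := le_max_left _ _
      have ha1 : (|γ| + 1) / (-β) ≤ a := le_max_right _ _
      refine ⟨a, 3 * a + 1, ha0, by linarith, ?_, ?_⟩
      · intro m hm ⟨h1, h2⟩
        have := g.two m hm
        have := hc m hm
        linarith
      · intro t ht _
        have hβ' : 0 < -β := by linarith
        have h1 : (|γ| + 1) / (-β) < t := by linarith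
        rw [div_lt_iff₀ hβ'] at h1
        have := le_abs_self γ
        nlinarith
  · -- `α > 0`
    set ξ := -β / (2 * α) with hξ
    have hβ : β = -2 * α * ξ := by rw [hξ]; field_simp
    set E := ξ ^ 2 - γ / α with hE
    have hγ : γ = α * (ξ ^ 2 - E) := by rw [hE]; field_simp; ring
    have hin : (z.re - ξ) ^ 2 + z.im ^ 2 < E := by
      have h1 : α * ((z.re - ξ) ^ 2 + z.im ^ 2 - E) < 0 := by
        rw [hβ, hγ] at h
        nlinarith
      by_contra hcon
      push Not at hcon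
      have : 0 ≤ α * ((z.re - ξ) ^ 2 + z.im ^ 2 - E) := mul_nonneg hα.le (by linarith)
      linarith
    have hEpos : 0 < E := by nlinarith [sq_nonneg (z.re - ξ), sq_nonneg z.im]
    set η := √E with hη
    have hηpos : 0 < η := Real.sqrt_pos.2 hEpos
    have hη2 : η ^ 2 = E := Real.sq_sqrt hEpos.le
    have hlt : |z.re - ξ| < η := by
      apply abs_lt_of_sq_lt_sq _ hηpos.le
      rw [hη2]; nlinarith [sq_nonneg z.im]
    obtain ⟨hl1, hl2⟩ := abs_lt.1 hlt
    refine ⟨max 0 (ξ - η), ξ + η, le_max_left _ _, max_lt (by linarith) (by linarith), ?_, ?_⟩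
    · intro m hm ⟨h1, h2⟩
      have h3 := hc m hm
      have h4 : c m - ρ m ≤ ξ - η := by
        rcases le_max_iff.1 h1 with h5 | h5
        · linarith
        · exact h5
      have h5 := hout m hm
      have h6 : |ξ - c m| + η ≤ ρ m := by
        have : |ξ - c m| ≤ ρ m - η := abs_le.2 ⟨by linarith, by linarith⟩
        linarith
      have h7 : nsq z (c m) < ρ m ^ 2 := by
        have e : nsq z (c m) = ((z.re - ξ) ^ 2 + z.im ^ 2) + 2 * ((z.re - ξ) * (ξ - c m)) +
            |ξ - c m| ^ 2 := by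
          rw [sq_abs]; unfold nsq; ring
        have h8 : (z.re - ξ) * (ξ - c m) ≤ η * |ξ - c m| := by
          calc (z.re - ξ) * (ξ - c m) ≤ |(z.re - ξ) * (ξ - c m)| := le_abs_self _
            _ = |z.re - ξ| * |ξ - c m| := abs_mul _ _
            _ ≤ η * |ξ - c m| := mul_le_mul_of_nonneg_right hlt.le (abs_nonneg _)
        rw [e]
        have h9 : (|ξ - c m| + η) ^ 2 ≤ ρ m ^ 2 := by
          apply pow_le_pow_left₀ _ h6
          positivity
        nlinarith
      linarith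
    · intro t ht1 ht2
      have h1 : ξ - η < t := lt_of_le_of_lt (le_max_right _ _) ht1
      rw [hβ, hγ, ← hη2]
      have h2 : 0 < (t - ξ + η) * (η - (t - ξ)) := mul_pos (by linarith) (by linarith)
      nlinarith

theorem disc_mem {k : ℕ} (hk : k ≠ 0) : nsq (turn (c k) (ρ k) • I) (c k) ≤ ρ k ^ 2 := by
  have h1 := g.ρpos k
  have h2 := g.two k hk
  have h0 := nsq_pos I (c k)
  rw [nsq_turn h1, div_le_iff₀ h0]
  have h3 : ρ k ^ 2 ≤ nsq I (c k) := by
    unfold nsq
    have e1 : (I : ℍ).re = 0 := UpperHalfPlane.I_re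
    have e2 : (I : ℍ).im = 1 := UpperHalfPlane.I_im
    rw [e1, e2]
    nlinarith
  nlinarith [mul_pos h1 h1]

theorem base_case {α β γ : ℝ} {z : ℍ} (hz : ∀ n, 0 ≤ sig c ρ n z) (h : qf α β γ z < 0) :
    ∃ k, qf α β γ (turn (c k) (ρ k) • I) < 0 := by
  obtain ⟨a, b, ha, hab, hno, hf⟩ := exists_interval g hz h
  obtain ⟨k, hk, h1, h2⟩ := exists_inside g ha hab hno
  refine ⟨k, qf_disc (g.ρpos k) (fun t ht1 ht2 => hf t (by linarith) (by linarith))
    (disc_mem g hk)⟩

theorem word_cons (n : ℕ) (l : List ℕ) (z : ℍ) :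
    word c ρ (n :: l) • z = turn (c n) (ρ n) • word c ρ l • z := by
  simp [word, mul_smul]

theorem step (l : List ℕ) : ∀ (α β γ : ℝ) {x : ℍ}, (∀ n, 0 ≤ sig c ρ n x) →
    qf α β γ (word c ρ l • x) < 0 → ∃ l', qf α β γ (word c ρ l' • I) < 0 := by
  induction l with
  | nil =>
    intro α β γ x hx h
    have h1 : word c ρ [] • x = x := by simp [word]
    rw [h1] at h
    obtain ⟨k, hk⟩ := base_case g hx h
    refine ⟨[k], ?_⟩
    have h2 : word c ρ [k] • I = turn (c k) (ρ k) • I := by simp [word]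
    rw [h2]; exact hk
  | cons n t ih =>
    intro α β γ x hx h
    rw [word_cons g] at h
    have h1 := qf_turn (c := c n) (g.ρpos n) α β γ (word c ρ t • x)
    have h2 := nsq_pos (word c ρ t • x) (c n)
    obtain ⟨l', hl'⟩ := ih _ _ _ hx (h1 ▸ mul_neg_of_neg_of_pos h h2)
    refine ⟨n :: l', ?_⟩
    rw [word_cons g]
    have h3 := qf_turn (c := c n) (g.ρpos n) α β γ (word c ρ l' • I)
    have h4 := nsq_pos (word c ρ l' • I) (c n)
    by_contra hcon
    push Not at hcon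
    have := mul_nonneg hcon h4.le
    linarith

end

end FK

/-- G9a: every nonempty open half-plane contains an orbit point of `i`. -/
theorem exists_word_mem {c ρ : ℕ → ℝ} (g : Geo c ρ) (α β γ : ℝ) (z : ℍ)
    (h : α * (z.re ^ 2 + z.im ^ 2) + β * z.re + γ < 0) :
    ∃ l : List ℕ, α * ((word c ρ l • I : ℍ).re ^ 2 + (word c ρ l • I : ℍ).im ^ 2) +
      β * (word c ρ l • I : ℍ).re + γ < 0 := by
  obtain ⟨l, x, _, hx, e⟩ := g.sys.tess z
  have e' : z = word c ρ l • x := e
  exact FK.step g l α β γ (x := x) hx (by rw [← e']; exact h)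

theorem FK.word_mem {c ρ : ℕ → ℝ} (l : List ℕ) : moebius (word c ρ l) ∈ grp c ρ := by
  induction l with
  | nil => simp [word, one_mem]
  | cons n t ih =>
    have : word c ρ (n :: t) = turn (c n) (ρ n) * word c ρ t := by simp [word]
    rw [this, map_mul]
    exact mul_mem (Subgroup.subset_closure ⟨n, rfl⟩) ih

/-- G9b. -/
theorem firstKind {c ρ : ℕ → ℝ} (g : Geo c ρ) : IsFirstKind (grp c ρ) := by
  have horb : ∀ l : List ℕ, (((word c ρ l • I : ℍ)) : ℂ) ∈ orbitI (grp c ρ) := by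
    intro l
    exact ⟨moebius (word c ρ l), FK.word_mem l, rfl⟩
  constructor
  · intro x
    rw [Metric.mem_closure_iff]
    intro ε hε
    obtain ⟨l, hl⟩ := exists_word_mem g 1 (-2 * x) (x ^ 2 - ε ^ 2)
      (⟨⟨x, ε / 2⟩, by simpa using hε⟩ : ℍ) (by
        show 1 * (x ^ 2 + (ε / 2) ^ 2) + -2 * x * x + (x ^ 2 - ε ^ 2) < 0
        nlinarith)
    refine ⟨_, horb l, ?_⟩
    rw [dist_comm, Complex.dist_eq_re_im]
    rw [Real.sqrt_lt' hε]
    have e1 : (((word c ρ l • I : ℍ)) : ℂ).re = (word c ρ l • I : ℍ).re := rfl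
    have e2 : (((word c ρ l • I : ℍ)) : ℂ).im = (word c ρ l • I : ℍ).im := rfl
    rw [e1, e2, Complex.ofReal_re, Complex.ofReal_im]
    nlinarith
  · intro hb
    obtain ⟨R, hR⟩ := hb.exists_norm_le
    have hR0 : 0 ≤ R := le_trans (norm_nonneg _) (hR _ (horb []))
    obtain ⟨l, hl⟩ := exists_word_mem g (-1) 0 (R ^ 2)
      (⟨⟨0, R + 1⟩, by simpa using (by linarith : 0 < R + 1)⟩ : ℍ) (by
        show -1 * ((0 : ℝ) ^ 2 + (R + 1) ^ 2) + 0 * 0 + R ^ 2 < 0
        nlinarith)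
    have h1 := hR _ (horb l)
    have h2 : ‖(((word c ρ l • I : ℍ)) : ℂ)‖ ^ 2 = (word c ρ l • I : ℍ).re ^ 2 +
        (word c ρ l • I : ℍ).im ^ 2 := by
      rw [← Complex.normSq_eq_norm_sq, Complex.normSq_apply]
      have e1 : (((word c ρ l • I : ℍ)) : ℂ).re = (word c ρ l • I : ℍ).re := rfl
      have e2 : (((word c ρ l • I : ℍ)) : ℂ).im = (word c ρ l • I : ℍ).im := rfl
      rw [e1, e2]; ring
    have h3 : ‖(((word c ρ l • I : ℍ)) : ℂ)‖ ^ 2 ≤ R ^ 2 :=
      pow_le_pow_left₀ (norm_nonneg _) h1 2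
    linarith

end H892R2.Fuchs
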