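import Pool.Agent.H892R2.Fuchs.GeoSys

/-! Tasks G6, G7, G8 (helper679): elements of the group, discreteness, not finitely generated. -/

open UpperHalfPlane Matrix MatrixGroups

namespace H892R2.Fuchs

theorem moebius_apply (g : SL(2, ℝ)) (z : ℍ) : moebius g z = g • z := rfl

theorem moebius_eq {g h : SL(2, ℝ)} (H : ∀ z : ℍ, g • z = h • z) : moebius g = moebius h := by
  apply Homeomorph.ext
  intro z
  exact H z

theorem mem_rcons {n m : ℕ} {l : List ℕ} (h : m ∈ rcons n l) : m = n ∨ m ∈ l := by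
  cases l with
  | nil => simp [rcons] at h; exact Or.inl h
  | cons k t =>
    simp only [rcons] at h
    split_ifs at h with hk
    · exact Or.inr (List.mem_cons_of_mem _ h)
    · rcases List.mem_cons.1 h with h | h
      · exact Or.inl h
      · exact Or.inr h

theorem mem_reduce {m : ℕ} {l : List ℕ} (h : m ∈ reduce l) : m ∈ l := by
  induction l with
  | nil => exact h
  | cons n t ih =>
    have h' : m ∈ rcons n (reduce t) := h
    rcases mem_rcons h' with rfl | h
    · simp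
    · exact List.mem_cons_of_mem _ (ih h)

theorem moebius_word_mem {c ρ : ℕ → ℝ} (l : List ℕ) (S : Set ℕ) (h : ∀ n ∈ l, n ∈ S) :
    moebius (word c ρ l) ∈
      Subgroup.closure ((fun n => moebius (turn (c n) (ρ n))) '' S) := by
  rw [word, map_list_prod, List.map_map]
  apply Subgroup.list_prod_mem
  intro x hx
  obtain ⟨n, hn, rfl⟩ := List.mem_map.1 hx
  exact Subgroup.subset_closure ⟨n, h n hn, rfl⟩

theorem mem_closure_word {c ρ : ℕ → ℝ} (g : Geo c ρ) (S : Set ℕ) (f : ℍ ≃ₜ ℍ)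
    (hf : f ∈ Subgroup.closure ((fun n => moebius (turn (c n) (ρ n))) '' S)) :
    ∃ l, Reduced l ∧ (∀ n ∈ l, n ∈ S) ∧ f = moebius (word c ρ l) := by
  have key : ∃ l : List ℕ, (∀ n ∈ l, n ∈ S) ∧ f = moebius (word c ρ l) := by
    induction hf using Subgroup.closure_induction with
    | mem x hx =>
      obtain ⟨n, hn, rfl⟩ := hx
      refine ⟨[n], by simpa using hn, ?_⟩
      simp [word]
    | one => exact ⟨[], by simp, by simp [word]⟩
    | mul x y _ _ hx hy =>
      obtain ⟨l, hl, rfl⟩ := hx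
      obtain ⟨l', hl', rfl⟩ := hy
      refine ⟨l ++ l', ?_, ?_⟩
      · intro n hn
        rcases List.mem_append.1 hn with h | h
        · exact hl n h
        · exact hl' n h
      · rw [← map_mul]; simp [word]
    | inv x _ hx =>
      obtain ⟨l, hl, rfl⟩ := hx
      refine ⟨l.reverse, fun n hn => hl n (List.mem_reverse.1 hn), ?_⟩
      rw [inv_eq_iff_mul_eq_one, ← map_mul, ← map_one moebius]
      apply moebius_eq
      intro z
      rw [mul_smul, one_smul]
      exact g.sys.W_inv' l z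
  obtain ⟨l, hl, rfl⟩ := key
  refine ⟨reduce l, reduce_reduced l, fun n hn => hl n (mem_reduce hn), ?_⟩
  apply moebius_eq
  intro z
  exact (g.sys.W_reduce l z).symm

theorem grp_eq (c ρ : ℕ → ℝ) :
    grp c ρ = Subgroup.closure ((fun n => moebius (turn (c n) (ρ n))) '' Set.univ) := by
  rw [grp, Set.image_univ]

/-- G6: the elements of the group. -/
theorem mem_grp_iff {c ρ : ℕ → ℝ} (g : Geo c ρ) (f : ℍ ≃ₜ ℍ) :
    f ∈ grp c ρ ↔ ∃ l, Reduced l ∧ f = moebius (word c ρ l) := by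
  rw [grp_eq]
  constructor
  · intro h
    obtain ⟨l, h1, -, h2⟩ := mem_closure_word g _ f h
    exact ⟨l, h1, h2⟩
  · rintro ⟨l, -, rfl⟩
    exact moebius_word_mem l _ (fun _ _ => Set.mem_univ _)

/-- the interior point of the fundamental domain -/
noncomputable def xs : ℍ := ⟨⟨1 / 2, 1⟩, by norm_num⟩

theorem sig_xs {c ρ : ℕ → ℝ} (g : Geo c ρ) (n : ℕ) : 1 / 2 ≤ g.sys.σ n xs := by
  have h0 : g.sys.σ 0 xs = 1 / 2 := by
    show sig c ρ 0 xs = 1 / 2
    rw [sig_zero]
    show (1 / 2 : ℝ) / 1 = 1 / 2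
    norm_num
  rcases eq_or_ne n 0 with rfl | hn
  · rw [h0]
  · have := g.sys.key n 0 hn xs
    rw [h0] at this
    linarith

theorem dist_xs {c ρ : ℕ → ℝ} (g : Geo c ρ) {l : List ℕ} (hl : Reduced l) (hne : l ≠ []) :
    Real.arsinh (1 / 2) ≤ dist (word c ρ l • xs) xs := by
  cases l with
  | nil => exact absurd rfl hne
  | cons n t =>
    have h1 := (g.sys.ping n t hl (x := xs) fun k => by linarith [sig_xs g k]).1
    have h2 := g.sys.lip n (g.sys.W (n :: t) • xs) xs
    have h3 : Real.arsinh (g.sys.σ n (g.sys.W (n :: t) • xs)) ≤ 0 := Real.arsinh_nonpos_iff.2 h1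
    have h4 : Real.arsinh (1 / 2) ≤ Real.arsinh (g.sys.σ n xs) :=
      Real.arsinh_le_arsinh.2 (sig_xs g n)
    have h5 := (abs_le.1 h2).1
    have h6 : g.sys.W (n :: t) • xs = word c ρ (n :: t) • xs := rfl
    rw [← h6]
    linarith

theorem trivial_action {g : SL(2, ℝ)} (h : ∀ z : ℍ, g • z = z) (hp : 0 < g 0 0) : g = 1 := by
  have hI := congrArg (fun z : ℍ => (z : ℂ)) (h I)
  have h2I := congrArg (fun z : ℍ => (z : ℂ)) (h ⟨⟨0, 2⟩, by norm_num⟩)
  simp only at hI h2I
  rw [UpperHalfPlane.coe_specialLinearGroup_apply] at hI h2I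
  have hd1 : ((g 1 0 : ℝ) : ℂ) * ((I : ℍ) : ℂ) + ((g 1 1 : ℝ) : ℂ) ≠ 0 := by
    intro h0
    rw [show (algebraMap ℝ ℝ (g 1 0)) = g 1 0 from rfl, show (algebraMap ℝ ℝ (g 1 1)) = g 1 1 from rfl,
      h0, div_zero] at hI
    have := congrArg Complex.im hI
    simp at this
  have hd2 : ((g 1 0 : ℝ) : ℂ) * (⟨0, 2⟩ : ℂ) + ((g 1 1 : ℝ) : ℂ) ≠ 0 := by
    intro h0
    rw [show (algebraMap ℝ ℝ (g 1 0)) = g 1 0 from rfl, show (algebraMap ℝ ℝ (g 1 1)) = g 1 1 from rfl] at h2I
    have h2I' : (((g 0 0 : ℝ) : ℂ) * (⟨0, 2⟩ : ℂ) + ((g 0 1 : ℝ) : ℂ)) /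
        (((g 1 0 : ℝ) : ℂ) * (⟨0, 2⟩ : ℂ) + ((g 1 1 : ℝ) : ℂ)) = (⟨0, 2⟩ : ℂ) := h2I
    rw [h0, div_zero] at h2I'
    have := congrArg Complex.im h2I'
    simp at this
  have e1 : ((g 0 0 : ℝ) : ℂ) * ((I : ℍ) : ℂ) + ((g 0 1 : ℝ) : ℂ)
      = ((I : ℍ) : ℂ) * (((g 1 0 : ℝ) : ℂ) * ((I : ℍ) : ℂ) + ((g 1 1 : ℝ) : ℂ)) :=
    (div_eq_iff hd1).1 hI
  have e2 : ((g 0 0 : ℝ) : ℂ) * (⟨0, 2⟩ : ℂ) + ((g 0 1 : ℝ) : ℂ)
      = (⟨0, 2⟩ : ℂ) * (((g 1 0 : ℝ) : ℂ) * (⟨0, 2⟩ : ℂ) + ((g 1 1 : ℝ) : ℂ)) :=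
    (div_eq_iff hd2).1 h2I
  have r1 := congrArg Complex.re e1
  have i1 := congrArg Complex.im e1
  have r2 := congrArg Complex.re e2
  have i2 := congrArg Complex.im e2
  simp [Complex.mul_re, Complex.mul_im] at r1 i1 r2 i2
  have hdet := g.det_coe
  rw [Matrix.det_fin_two] at hdet
  have h10 : g 1 0 = 0 := by linarith
  have h01 : g 0 1 = 0 := by linarith
  have h11 : g 0 0 = g 1 1 := by linarith
  have hsq : g 0 0 * g 0 0 = 1 := by
    have : g 0 0 * g 1 1 - g 0 1 * g 1 0 = 1 := hdet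
    rw [h10, h01, ← h11] at this
    linarith
  have h00 : g 0 0 = 1 := by nlinarith
  ext i j
  fin_cases i <;> fin_cases j
  · simpa using h00
  · simpa using h01
  · simpa using h10
  · rw [h00] at h11; simpa using h11.symm

/-- G7. -/
theorem fuchsian {c ρ : ℕ → ℝ} (g : Geo c ρ) : IsFuchsian (grp c ρ) := by
  constructor
  · intro f hf
    obtain ⟨l, -, rfl⟩ := (mem_grp_iff g f).1 hf
    exact ⟨_, rfl⟩
  · apply discreteTopology_of_isOpen_singleton_one
    rw [isOpen_induced_iff]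
    refine ⟨{h : SL(2, ℝ) | dist (h • xs) xs < Real.arsinh (1 / 2)} ∩ {h : SL(2, ℝ) | 0 < h 0 0},
      ?_, ?_⟩
    · apply IsOpen.inter
      · exact isOpen_lt (by fun_prop) continuous_const
      · apply isOpen_lt continuous_const
        have h1 : Continuous (fun h : SL(2, ℝ) => (h : Matrix (Fin 2) (Fin 2) ℝ)) :=
          continuous_subtype_val
        exact h1.matrix_elem 0 0
    · ext h
      simp only [Set.mem_preimage, Set.mem_inter_iff, Set.mem_singleton_iff]
      constructor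
      · rintro ⟨h1, h2⟩
        obtain ⟨l, hl, e⟩ := (mem_grp_iff g _).1 (Subgroup.mem_comap.1 h.2)
        have h3 : ∀ z : ℍ, (h : SL(2, ℝ)) • z = word c ρ l • z := fun z => by
          rw [← moebius_apply, e, moebius_apply]
        have hl0 : l = [] := by
          by_contra hne
          have := dist_xs g hl hne
          rw [← h3] at this
          exact absurd h1 (not_lt.2 this)
        subst hl0
        apply Subtype.ext
        apply trivial_action _ h2
        intro z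
        rw [h3]
        simp [word]
      · rintro rfl
        refine ⟨?_, ?_⟩
        · show dist ((1 : SL(2, ℝ)) • xs) xs < Real.arsinh (1 / 2)
          rw [one_smul, dist_self]
          exact Real.arsinh_pos_iff.2 (by norm_num)
        · show 0 < (1 : SL(2, ℝ)) 0 0
          simp

/-- G8. -/
theorem not_fg {c ρ : ℕ → ℝ} (g : Geo c ρ) : ¬ (grp c ρ).FG := by
  rintro ⟨S, hS⟩
  have h1 : ∀ s ∈ S, ∃ l, Reduced l ∧ s = moebius (word c ρ l) := fun s hs =>
    (mem_grp_iff g s).1 (hS ▸ Subgroup.subset_closure hs)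
  choose! L hL1 hL2 using h1
  set T : Finset ℕ := S.biUnion (fun s => (L s).toFinset) with hT
  obtain ⟨m, hm⟩ := Infinite.exists_notMem_finset T
  have h2 : Subgroup.closure (S : Set (ℍ ≃ₜ ℍ)) ≤
      Subgroup.closure ((fun n => moebius (turn (c n) (ρ n))) '' (T : Set ℕ)) := by
    rw [Subgroup.closure_le]
    intro s hs
    rw [hL2 s hs]
    apply moebius_word_mem
    intro n hn
    rw [hT]
    simp only [Finset.coe_biUnion, Set.mem_iUnion]
    exact ⟨s, hs, by simpa using hn⟩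
  have h3 : moebius (turn (c m) (ρ m)) ∈ grp c ρ := Subgroup.subset_closure ⟨m, rfl⟩
  rw [← hS] at h3
  obtain ⟨l, hl1, hl2, hl3⟩ := mem_closure_word g _ _ (h2 h3)
  have h4 : g.sys.W [m] • xs = g.sys.W l • xs := by
    have h5 : moebius (turn (c m) (ρ m)) xs = moebius (word c ρ l) xs := by rw [hl3]
    rw [moebius_apply, moebius_apply] at h5
    rw [Sys.W_cons, Sys.W_nil]
    exact h5
  have h5 := g.sys.word_inj [m] l (reduced_single m) hl1 (fun n => by linarith [sig_xs g n]) h4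
  rw [← h5] at hl2
  exact hm (by simpa using hl2 m (by simp))

end H892R2.Fuchs
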