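import Pool.Agent.H892R2.Fuchs.Isotopy
import Pool.Agent.H892R2.Fuchs.GrpG
import Pool.Agent.H892R2.Fuchs.FirstKind
import Pool.Agent.H892R2.Fuchs.E3
import Pool.Agent.H892R2.Fuchs.Diverge
import Pool.Agent.H892R2.Fuchs.Converge

open UpperHalfPlane Matrix MatrixGroups

namespace H892R2.Fuchs

/-- an interior point of the fundamental domain -/
noncomputable def base : ℍ := ⟨⟨1 / 2, 1⟩, one_pos⟩

theorem base_re : base.re = 1 / 2 := rfl
theorem base_im : base.im = 1 := rfl

theorem base_pos {c ρ : ℕ → ℝ} (g : Geo c ρ) (n : ℕ) : 1 / 2 ≤ sig c ρ n base := by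
  have h0 : sig c ρ 0 base = 1 / 2 := by rw [sig_zero, base_re, base_im]; norm_num
  rcases eq_or_ne n 0 with rfl | hn
  · rw [h0]
  · have := key g.ρpos g.two g.sep (Ne.symm hn) base
    rw [h0] at this
    linarith

theorem word_inj {c ρ : ℕ → ℝ} (g : Geo c ρ) {l l' : List ℕ} (hl : Reduced l) (hl' : Reduced l')
    (h : moebius (word c ρ l) = moebius (word c ρ l')) : l = l' := by
  apply g.sys.word_inj l l' hl hl' (x := base)
  · intro n
    have : 1 / 2 ≤ g.sys.σ n base := base_pos g n
    linarith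
  · have := congrArg (fun f : ℍ ≃ₜ ℍ => f base) h
    exact this

theorem summable_iff {c ρ : ℕ → ℝ} (g : Geo c ρ) (s : ℝ) :
    Summable (fun γ : grp c ρ => poincareTerm s γ) ↔
      Summable (fun l : {l : List ℕ // Reduced l} => Real.exp (-s * dist I (word c ρ l.1 • I))) := by
  let e : {l : List ℕ // Reduced l} → grp c ρ := fun l =>
    ⟨moebius (word c ρ l.1), (mem_grp_iff g _).2 ⟨l.1, l.2, rfl⟩⟩
  have he : Function.Bijective e := by
    constructor
    · intro l l' h
      have := congrArg Subtype.val h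
      exact Subtype.ext (word_inj g l.2 l'.2 this)
    · intro γ
      obtain ⟨l, hl, h⟩ := (mem_grp_iff g _).1 γ.2
      exact ⟨⟨l, hl⟩, Subtype.ext h.symm⟩
  have := (Equiv.ofBijective e he).summable_iff (f := fun γ : grp c ρ => poincareTerm s γ)
  rw [← this]
  rfl

theorem isQC_one : IsQuasiconformal 1 := ⟨1, fun _ => ⟨1, one_pos, fun y y' _ h => by
  simp only [Homeomorph.one_apply, one_mul]; exact h.le⟩⟩

theorem isotopic_one : IsotopicToId 1 := ⟨fun _ => 1, continuous_snd, rfl, rfl⟩

theorem deform_one (Γ : Subgroup (ℍ ≃ₜ ℍ)) : deform 1 Γ = Γ := by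
  unfold deform
  rw [map_one]
  exact Subgroup.map_id Γ

theorem target : Target := by
  obtain ⟨c, ρ, x, y, g, st, hρ0, wt⟩ := exists_data
  set ρ' : ℕ → ℝ := fun n => if n = 0 then 1 else ρ n with hρ'
  have hne : ∀ n, n ≠ 0 → ρ' n = ρ n := fun n hn => by rw [hρ']; simp [hn]
  have h0 : ρ' 0 = 1 := by rw [hρ']; simp
  have g' : Geo c ρ' := by
    refine ⟨g.c0, fun n => ?_, fun n hn => ?_, fun n m hn hm hnm => ?_, fun a b ha hab => ?_⟩
    · rcases eq_or_ne n 0 with rfl | hn
      · rw [h0]; exact one_pos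
      · rw [hne n hn]; exact g.ρpos n
    · rw [hne n hn]; exact g.two n hn
    · rw [hne n hn, hne m hm]; exact g.sep n m hn hm hnm
    · obtain ⟨n, hn, q, h1, h2, h3⟩ := g.dense a b ha hab
      exact ⟨n, hn, q, h1, h2, by rw [hne n hn]; exact h3⟩
  have st' : Start c ρ' := by
    refine ⟨st.c1, st.c2, st.c3, ?_, ?_, ?_⟩
    · rw [hne 1 (by norm_num)]; exact st.ρ1
    · rw [hne 2 (by norm_num)]; exact st.ρ2
    · rw [hne 3 (by norm_num)]; exact st.ρ3
  obtain ⟨w, hi, hw, hd⟩ := exists_qc' g' g hne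
  refine ⟨grp c ρ', fuchsian g', firstKind g', not_fg g', 1, ⟨isotopic_one, isQC_one, ?_⟩, w,
    ⟨hi, hw, ?_⟩, ?_⟩
  · rw [deform_one]; exact (fuchsian g').1
  · rw [hd]; exact (fuchsian g).1
  · rw [deform_one, hd]
    apply ne_of_gt
    have h1 : criticalExponent (grp c ρ) ≤ ENNReal.ofReal (1 / 52) := by
      apply sInf_le
      refine ⟨1 / 52, by norm_num, ?_, rfl⟩
      rw [summable_iff g]
      have hping : ∀ n t, Reduced (n :: t) → sig c ρ n (word c ρ (n :: t) • I) ≤ 0 := by
        intro n t hl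
        have hI : I ∈ g.sys.F := by
          intro m
          show 0 ≤ sig c ρ m I
          rcases eq_or_ne m 0 with rfl | hm
          · rw [sig_zero]; simp
          · have := key g.ρpos g.two g.sep (Ne.symm hm) I
            rw [sig_zero] at this
            simp at this
            linarith
        exact (g.sys.ping n t hl hI).1
      exact converge g.ρpos wt hping
    have h2 : ENNReal.ofReal (1 / 51) ≤ criticalExponent (grp c ρ') := by
      apply le_sInf
      rintro t ⟨s, hs, hsum, rfl⟩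
      rw [summable_iff g'] at hsum
      apply ENNReal.ofReal_le_ofReal
      by_contra hlt
      push Not at hlt
      exact diverge st' g.c0 h0 hs hlt.le hsum
    refine lt_of_le_of_lt h1 (lt_of_lt_of_le ?_ h2)
    rw [ENNReal.ofReal_lt_ofReal_iff (by norm_num)]
    norm_num

end H892R2.Fuchs
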