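import Pool.Agent.H892R2.Fuchs.Ping

open UpperHalfPlane Matrix MatrixGroups

namespace H892R2.Fuchs

theorem sinh_tenth : Real.sinh (1 / 10) ≤ 11 / 100 := by
  rw [Real.sinh_eq]
  have h1 : (9 : ℝ) / 10 ≤ Real.exp (-(1 / 10)) := by
    have := Real.add_one_le_exp (-(1 / 10 : ℝ))
    linarith
  have h2 : Real.exp (1 / 10) ≤ 10 / 9 := by
    have h3 : Real.exp (1 / 10) * Real.exp (-(1 / 10)) = 1 := by
      rw [← Real.exp_add]; simp
    have h4 := Real.exp_pos (1 / 10)
    nlinarith
  linarith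

theorem sinh_one_lt : Real.sinh 1 < 128 / 100 := by
  rw [Real.sinh_eq]
  have h1 := Real.exp_one_lt_d9
  have h2 := Real.exp_neg_one_gt_d9
  linarith

theorem sinh_le_mul_exp {x : ℝ} : Real.sinh x ≤ x * Real.exp x := by
  rw [Real.sinh_eq]
  have h1 := Real.add_one_le_exp (-2 * x)
  have h2 : Real.exp (-x) = Real.exp x * Real.exp (-2 * x) := by
    rw [← Real.exp_add]; ring_nf
  have h3 := Real.exp_pos x
  rw [h2]
  nlinarith

/-- Data of a conjugacy between two systems on the fundamental domain. -/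
structure Conj (S S' : Sys) where
  /-- the map -/
  h : ℍ → ℍ
  /-- its inverse -/
  h' : ℍ → ℍ
  eqv : ∀ (n : ℕ) (z : ℍ), |S.σ n z| ≤ 11 / 100 → h (S.R n • z) = S'.R n • h z
  eqv' : ∀ (n : ℕ) (z : ℍ), |S'.σ n z| ≤ 11 / 100 → h' (S'.R n • z) = S.R n • h' z
  maps : ∀ z ∈ S.F, h z ∈ S'.F
  maps' : ∀ z ∈ S'.F, h' z ∈ S.F
  left : ∀ z, h' (h z) = z
  right : ∀ z, h (h' z) = z
  /-- Lipschitz constant -/
  L : ℝ
  hL : 1 ≤ L
  lip : ∀ z w, dist z w ≤ 1 → dist (h z) (h w) ≤ L * dist z w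
  lip' : ∀ z w, dist z w ≤ 1 → dist (h' z) (h' w) ≤ L * dist z w

namespace Conj

variable {S S' : Sys} (C : Conj S S')

/-- the inverse conjugacy -/
def symm : Conj S' S where
  h := C.h'
  h' := C.h
  eqv := C.eqv'
  eqv' := C.eqv
  maps := C.maps'
  maps' := C.maps
  left := C.right
  right := C.left
  L := C.L
  hL := C.hL
  lip := C.lip'
  lip' := C.lip

/-- the equivariant extension -/
noncomputable def w (z : ℍ) : ℍ :=
  S'.W (S.tess z).choose • C.h (S.tess z).choose_spec.choose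

theorem w_word {l : List ℕ} (hl : Reduced l) {x : ℍ} (hx : x ∈ S.F) :
    C.w (S.W l • x) = S'.W l • C.h x := by
  have h1 := (S.tess (S.W l • x)).choose_spec.choose_spec
  obtain ⟨h2, h3, h4⟩ := h1
  refine (S.wd S' (fun n x h0 => C.eqv n x ?_) _ _ h2 hl h3 hx h4.symm)
  rw [h0]; norm_num

theorem w_F {x : ℍ} (hx : x ∈ S.F) : C.w x = C.h x := by
  have := C.w_word reduced_nil hx
  rwa [S.W_nil, S'.W_nil] at this

theorem w_R (n : ℕ) (z : ℍ) : C.w (S.R n • z) = S'.R n • C.w z := by
  obtain ⟨l, x, hl, hx, rfl⟩ := S.tess z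
  rw [← S.W_rcons, C.w_word (rcons_reduced n hl) hx, C.w_word hl hx, S'.W_rcons]

theorem w_W (l : List ℕ) (z : ℍ) : C.w (S.W l • z) = S'.W l • C.w z := by
  induction l with
  | nil => rw [S.W_nil, S'.W_nil]
  | cons n t ih => rw [S.W_cons, S'.W_cons, w_R, ih]

theorem w_symm_w (z : ℍ) : C.symm.w (C.w z) = z := by
  obtain ⟨l, x, hl, hx, rfl⟩ := S.tess z
  rw [C.w_word hl hx, C.symm.w_W, C.symm.w_F (C.maps x hx)]
  show _ • C.h' (C.h x) = _
  rw [C.left]

theorem w_w_symm (z : ℍ) : C.w (C.symm.w z) = z := C.symm.w_symm_w z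

/-- near the fundamental domain `w` is `h` -/
theorem w_near {x z : ℍ} (hx : x ∈ S.F) (hz : dist x z ≤ 1 / 10) : C.w z = C.h z := by
  by_cases hF : z ∈ S.F
  · exact C.w_F hF
  · simp only [Sys.F, Set.mem_ofPred_eq, not_forall, not_le] at hF
    obtain ⟨n, hn⟩ := hF
    have h1 := S.lip n x z
    have h2 : 0 ≤ Real.arsinh (S.σ n x) := Real.arsinh_nonneg_iff.2 (hx n)
    have h3 : -(1 / 10) ≤ Real.arsinh (S.σ n z) := by
      have := (abs_le.1 (h1.trans hz)).2
      linarith
    have h4 : -(11 / 100) ≤ S.σ n z := by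
      have h5 : Real.sinh (-(1 / 10)) ≤ S.σ n z := by
        rw [← Real.sinh_arsinh (S.σ n z)]
        exact Real.sinh_le_sinh.2 h3
      refine le_trans ?_ h5
      rw [Real.sinh_neg]
      apply neg_le_neg
      exact sinh_tenth
    have h6 : S.R n • z ∈ S.F := by
      intro m
      rcases eq_or_ne n m with rfl | hm
      · rw [S.anti]; linarith
      · have h7 := S.key n m hm (S.R n • z)
        rw [S.anti] at h7
        linarith
    have h7 : z = S.W [n] • S.R n • z := by rw [S.W_cons, S.W_nil, S.invol]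
    conv_lhs => rw [h7]
    rw [C.w_word (reduced_single n) h6, S'.W_cons, S'.W_nil, C.eqv, S'.invol]
    rw [abs_le]
    constructor <;> linarith

/-- local form of `w` -/
theorem w_local (l : List ℕ) {x z : ℍ} (hx : x ∈ S.F) (hz : dist (S.W l • x) z ≤ 1 / 10) :
    C.w z = S'.W l • C.h (S.W l.reverse • z) := by
  have h1 : dist x (S.W l.reverse • z) ≤ 1 / 10 := by
    rw [← dist_smul (S.W l), S.W_inv']
    exact hz
  rw [← C.w_near hx h1, ← C.w_W, S.W_inv']

theorem continuous_h : Continuous C.h := by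
  rw [Metric.continuous_iff]
  intro z ε hε
  have hL := C.hL
  refine ⟨min 1 (ε / (2 * C.L)), by positivity, fun y hy => ?_⟩
  have h1 : dist y z ≤ 1 := (hy.le.trans (min_le_left _ _))
  have h2 : dist y z ≤ ε / (2 * C.L) := (hy.le.trans (min_le_right _ _))
  have h3 := C.lip y z h1
  rw [le_div_iff₀ (by positivity)] at h2
  nlinarith

theorem continuous_w : Continuous C.w := by
  rw [continuous_iff_continuousAt]
  intro z
  obtain ⟨l, x, hl, hx, rfl⟩ := S.tess z
  have h1 : ContinuousAt (fun z => S'.W l • C.h (S.W l.reverse • z)) (S.W l • x) := by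
    have h2 : Continuous (fun z => S'.W l • C.h (S.W l.reverse • z)) :=
      (continuous_const_smul _).comp (C.continuous_h.comp (continuous_const_smul _))
    exact h2.continuousAt
  refine h1.congr ?_
  filter_upwards [Metric.closedBall_mem_nhds (S.W l • x) (show (0 : ℝ) < 1 / 10 by norm_num)]
    with y hy
  rw [Metric.mem_closedBall, dist_comm] at hy
  exact (C.w_local l hx hy).symm

/-- the homeomorphism -/
noncomputable def homeo : ℍ ≃ₜ ℍ where
  toFun := C.w
  invFun := C.symm.w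
  left_inv := C.w_symm_w
  right_inv := C.w_w_symm
  continuous_toFun := C.continuous_w
  continuous_invFun := C.symm.continuous_w

theorem homeo_R (n : ℕ) (z : ℍ) : C.homeo (S.R n • z) = S'.R n • C.homeo z := C.w_R n z

theorem homeo_qc : IsQuasiconformal C.homeo := by
  refine ⟨C.L * C.L, fun z => ?_⟩
  have hL := C.hL
  refine ⟨1 / (10 * C.L), by positivity, fun y y' h1 h2 => ?_⟩
  have h3 : (1 : ℝ) / (10 * C.L) ≤ 1 / 10 := by
    apply one_div_le_one_div_of_le (by norm_num); linarith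
  obtain ⟨l, x, hl, hx, rfl⟩ := S.tess z
  set z := S.W l • x with hz
  show dist (C.w z) (C.w y) ≤ _ * dist (C.w z) (C.w y')
  have hzz : dist z z ≤ 1 / 10 := by rw [dist_self]; norm_num
  rw [C.w_local l hx hzz, C.w_local l hx (h1.le.trans h3),
    C.w_local l hx (h2 ▸ (h1.le.trans h3)), dist_smul, dist_smul]
  set a := S.W l.reverse • z
  set b := S.W l.reverse • y
  set b' := S.W l.reverse • y'
  have h4 : dist a b = dist z y := dist_smul _ _ _
  have h5 : dist a b' = dist z y' := dist_smul _ _ _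
  have h6 : dist a b ≤ 1 := by rw [h4]; linarith
  have h7 := C.lip a b h6
  have h8 : dist a b' ≤ 1 := by rw [h5, ← h2]; linarith
  have h9 := C.lip a b' h8
  have h10 : dist (C.h a) (C.h b') ≤ 1 := by
    have h11 : dist a b' < 1 / (10 * C.L) := by rw [h5, ← h2]; exact h1
    rw [lt_div_iff₀ (by positivity)] at h11
    nlinarith
  have h12 := C.lip' _ _ h10
  rw [C.left, C.left] at h12
  calc dist (C.h a) (C.h b) ≤ C.L * dist a b := h7
    _ = C.L * dist a b' := by rw [h4, h5, h2]
    _ ≤ C.L * (C.L * dist (C.h a) (C.h b')) := by gcongr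
    _ = _ := by ring

end Conj

end H892R2.Fuchs
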