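import Mathlib

/-!
# Fuchsian groups, quasiconformal deformations, critical exponents

The definitions used in the statement of `MP_c5bc55_gt.ExponentVaries`.
-/

open UpperHalfPlane Matrix MatrixGroups

namespace H892R2.Fuchs

/-- The homeomorphism of the hyperbolic plane `ℍ` given by the Möbius action of a matrix. -/
noncomputable def moebius : SL(2, ℝ) →* (ℍ ≃ₜ ℍ) where
  toFun g := Homeomorph.smul g
  map_one' := by ext z; simp [Homeomorph.smul]
  map_mul' g h := by ext z; simp [Homeomorph.smul, mul_smul]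

/-- `PSL(2,ℝ)`, realised as the group of Möbius homeomorphisms of `ℍ`. -/
noncomputable def PSL2R : Subgroup (ℍ ≃ₜ ℍ) := moebius.range

/-- Fuchsian groups: subgroups of `PSL(2,ℝ)` whose preimage in `SL(2,ℝ)` is discrete. -/
def IsFuchsian (Γ : Subgroup (ℍ ≃ₜ ℍ)) : Prop :=
  Γ ≤ PSL2R ∧ DiscreteTopology (Γ.comap moebius)

/-- The orbit of `i`, as a set of complex numbers. -/
def orbitI (Γ : Subgroup (ℍ ≃ₜ ℍ)) : Set ℂ := {p | ∃ γ ∈ Γ, p = ((γ I : ℍ) : ℂ)}

/-- First kind: every real number and `∞` is an accumulation point of an orbit. -/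
def IsFirstKind (Γ : Subgroup (ℍ ≃ₜ ℍ)) : Prop :=
  (∀ x : ℝ, (x : ℂ) ∈ closure (orbitI Γ)) ∧ ¬ Bornology.IsBounded (orbitI Γ)

/-- Metric definition of quasiconformality (with respect to the hyperbolic metric). -/
def IsQuasiconformal (w : ℍ ≃ₜ ℍ) : Prop :=
  ∃ K : ℝ, ∀ z : ℍ, ∃ r : ℝ, 0 < r ∧ ∀ y y' : ℍ, dist z y < r → dist z y = dist z y' →
    dist (w z) (w y) ≤ K * dist (w z) (w y')

/-- Homeomorphisms of the hyperbolic plane that are isotopic to the identity; for the plane these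
are exactly the orientation-preserving homeomorphisms. -/
def IsotopicToId (w : ℍ ≃ₜ ℍ) : Prop :=
  ∃ H : ℝ → (ℍ ≃ₜ ℍ), Continuous (fun p : ℝ × ℍ => H p.1 p.2) ∧ H 0 = 1 ∧ H 1 = w

/-- The conjugate group `w Γ w⁻¹`. -/
noncomputable def deform (w : ℍ ≃ₜ ℍ) (Γ : Subgroup (ℍ ≃ₜ ℍ)) : Subgroup (ℍ ≃ₜ ℍ) :=
  Γ.map (MulAut.conj w).toMonoidHom

/-- The orientation-preserving quasiconformal homeomorphisms conjugating `Γ` into `PSL(2,ℝ)`. -/
def Tqc (Γ : Subgroup (ℍ ≃ₜ ℍ)) : Set (ℍ ≃ₜ ℍ) :=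
  {w | IsotopicToId w ∧ IsQuasiconformal w ∧ deform w Γ ≤ PSL2R}

/-- The terms of the Poincaré series. -/
noncomputable def poincareTerm (s : ℝ) (γ : ℍ ≃ₜ ℍ) : ℝ := Real.exp (-s * dist I (γ I))

/-- The critical exponent (the infimum of the empty set is `∞`). -/
noncomputable def criticalExponent (Γ : Subgroup (ℍ ≃ₜ ℍ)) : ENNReal :=
  sInf {t | ∃ s : ℝ, 0 < s ∧ Summable (fun γ : Γ => poincareTerm s γ) ∧ t = ENNReal.ofReal s}

end H892R2.Fuchs
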