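import Pool.Agent.H892R2.Fuchs.Core

/-!
# The generators and the hypotheses on the data
-/

open UpperHalfPlane Matrix MatrixGroups

namespace H892R2.Fuchs

/-- The target statement. -/
def Target : Prop :=
  ∃ Γ₀ : Subgroup (ℍ ≃ₜ ℍ), IsFuchsian Γ₀ ∧ IsFirstKind Γ₀ ∧ ¬ Γ₀.FG ∧
    ∃ w₁ ∈ Tqc Γ₀, ∃ w₂ ∈ Tqc Γ₀,
      criticalExponent (deform w₁ Γ₀) ≠ criticalExponent (deform w₂ Γ₀)

/-! ### The generators -/

/-- the matrix of the half-turn `z ↦ c - ρ²/(z - c)` -/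
noncomputable def turnMat (c ρ : ℝ) : Matrix (Fin 2) (Fin 2) ℝ :=
  !![c / ρ, -(c ^ 2 + ρ ^ 2) / ρ; 1 / ρ, -c / ρ]

theorem turnMat_det {c ρ : ℝ} (h : ρ ≠ 0) : (turnMat c ρ).det = 1 := by
  rw [turnMat, Matrix.det_fin_two_of]; field_simp; ring

/-- the half-turn `z ↦ c - ρ²/(z - c)` -/
noncomputable def turn (c ρ : ℝ) : SL(2, ℝ) :=
  if h : ρ ≠ 0 then (⟨turnMat c ρ, turnMat_det h⟩ : Matrix.SpecialLinearGroup (Fin 2) ℝ) else 1

/-- the product of a word -/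
noncomputable def word (c ρ : ℕ → ℝ) (l : List ℕ) : SL(2, ℝ) :=
  (l.map (fun n => turn (c n) (ρ n))).prod

/-- reduced words -/
def Reduced (l : List ℕ) : Prop := l.IsChain (· ≠ ·)

/-- squared euclidean distance from `z` to the real point `c` -/
noncomputable def nsq (z : ℍ) (c : ℝ) : ℝ := (z.re - c) ^ 2 + z.im ^ 2

theorem nsq_pos (z : ℍ) (c : ℝ) : 0 < nsq z c := by
  have := z.im_pos
  unfold nsq; positivity

theorem turn_val {c ρ : ℝ} (h : 0 < ρ) :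
    (turn c ρ : Matrix (Fin 2) (Fin 2) ℝ) = !![c / ρ, -(c ^ 2 + ρ ^ 2) / ρ; 1 / ρ, -c / ρ] := by
  have h1 : turn c ρ = (⟨turnMat c ρ, turnMat_det h.ne'⟩ : Matrix.SpecialLinearGroup (Fin 2) ℝ) :=
    dif_pos h.ne'
  rw [h1]; rfl

theorem turn_coe {c ρ : ℝ} (h : 0 < ρ) (z : ℍ) :
    ((turn c ρ • z : ℍ) : ℂ) = c - ρ ^ 2 / (z - c) := by
  have hz : (z : ℂ) - c ≠ 0 := by
    intro h0
    have := congrArg Complex.im h0
    simp at this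
    exact z.im_ne_zero this
  have hρ : (ρ : ℂ) ≠ 0 := by exact_mod_cast h.ne'
  rw [UpperHalfPlane.coe_specialLinearGroup_apply, turn_val h]
  simp
  have h1 : (ρ : ℂ)⁻¹ * z + -c / ρ = (z - c) / ρ := by field_simp; ring
  rw [h1]
  field_simp
  ring

theorem turn_im {c ρ : ℝ} (h : 0 < ρ) (z : ℍ) :
    (turn c ρ • z : ℍ).im = ρ ^ 2 * z.im / nsq z c := by
  have h0 := nsq_pos z c
  have h1 : (turn c ρ • z : ℍ).im = (((turn c ρ • z : ℍ) : ℂ)).im := rfl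
  have h2 : Complex.normSq ((z : ℂ) - c) = nsq z c := by
    rw [Complex.normSq_apply, nsq]; simp; ring
  rw [h1, turn_coe h]
  have h3 : ((ρ : ℂ) ^ 2).re = ρ ^ 2 := by rw [← Complex.ofReal_pow, Complex.ofReal_re]
  have h4 : ((ρ : ℂ) ^ 2).im = 0 := by rw [← Complex.ofReal_pow, Complex.ofReal_im]
  rw [Complex.sub_im, Complex.div_im, h2, h3, h4]
  simp

theorem turn_re {c ρ : ℝ} (h : 0 < ρ) (z : ℍ) :
    (turn c ρ • z : ℍ).re = c - ρ ^ 2 * (z.re - c) / nsq z c := by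
  have h0 := nsq_pos z c
  have h1 : (turn c ρ • z : ℍ).re = (((turn c ρ • z : ℍ) : ℂ)).re := rfl
  have h2 : Complex.normSq ((z : ℂ) - c) = nsq z c := by
    rw [Complex.normSq_apply, nsq]; simp; ring
  rw [h1, turn_coe h]
  have h3 : ((ρ : ℂ) ^ 2).re = ρ ^ 2 := by rw [← Complex.ofReal_pow, Complex.ofReal_re]
  have h4 : ((ρ : ℂ) ^ 2).im = 0 := by rw [← Complex.ofReal_pow, Complex.ofReal_im]
  rw [Complex.sub_re, Complex.div_re, h2, h3, h4]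
  simp

/-- `sinh` of the signed distance to the boundary of the `n`-th half-plane. -/
noncomputable def sig (c ρ : ℕ → ℝ) (n : ℕ) (z : ℍ) : ℝ :=
  if n = 0 then z.re / z.im else (nsq z (c n) - ρ n ^ 2) / (2 * ρ n * z.im)

/-- the radius `ε` of the first three discs -/
noncomputable def eps : ℝ := (3 / 10) ^ 26 / 2

/-- the small parameter `λ` -/
noncomputable def lam : ℝ := (1 / 10) ^ 52 / 2

/-- The geometric hypotheses on the data. -/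
structure Geo (c ρ : ℕ → ℝ) : Prop where
  c0 : c 0 = 0
  ρpos : ∀ n, 0 < ρ n
  two : ∀ n, n ≠ 0 → 2 * ρ n ≤ c n
  sep : ∀ n m, n ≠ 0 → m ≠ 0 → n ≠ m → ρ n ^ 2 + ρ m ^ 2 + 4 * ρ n * ρ m ≤ (c n - c m) ^ 2
  dense : ∀ a b : ℝ, 0 ≤ a → a < b → ∃ n, n ≠ 0 ∧ ∃ q, a < q ∧ q < b ∧ |q - c n| ≤ ρ n

/-- The first three discs. -/
structure Start (c ρ : ℕ → ℝ) : Prop where
  c1 : c 1 = 1
  c2 : c 2 = 2
  c3 : c 3 = 3
  ρ1 : ρ 1 = eps
  ρ2 : ρ 2 = eps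
  ρ3 : ρ 3 = eps

/-- The weights. -/
structure Weights (c ρ x y : ℕ → ℝ) : Prop where
  xpos : ∀ n, 0 < x n
  ypos : ∀ n, 0 < y n
  cross : ∀ n m, n ≠ m → ∀ z : ℍ, sig c ρ m z ≤ 0 → ρ n ^ 2 ≤ x n * y m * nsq z (c n)
  base : ∀ n, ρ n ^ 2 ≤ x n * nsq I (c n)
  sumx : Summable (fun n => x n ^ (1 / 52 : ℝ))
  sumb : Summable (fun n => (x n * y n) ^ (1 / 52 : ℝ))
  sumb_lt : ∑' n, (x n * y n) ^ (1 / 52 : ℝ) < 1

end H892R2.Fuchs
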