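import Pool.Agent.H892R2.Fuchs.ConjMap

open UpperHalfPlane Matrix MatrixGroups

namespace H892R2.Fuchs

/-- the system attached to the data -/
noncomputable def Geo.sys {c ρ : ℕ → ℝ} (g : Geo c ρ) : Sys where
  R := fun n => turn (c n) (ρ n)
  σ := sig c ρ
  invol := fun n z => turn_turn (g.ρpos n) z
  anti := fun n z => sig_turn g.c0 g.ρpos n z
  key := fun _ _ h z => key g.ρpos g.two g.sep h z
  lip := fun n z w => lip g.ρpos n z w

theorem Geo.sys_W {c ρ : ℕ → ℝ} (g : Geo c ρ) (l : List ℕ) : g.sys.W l = word c ρ l := rfl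

/-- The group generated by the half-turns. -/
noncomputable def grp (c ρ : ℕ → ℝ) : Subgroup (ℍ ≃ₜ ℍ) :=
  Subgroup.closure (Set.range fun n => moebius (turn (c n) (ρ n)))

end H892R2.Fuchs
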