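import Pool.Agent.H892R2.Fuchs.TheConj

open UpperHalfPlane Matrix MatrixGroups

namespace H892R2.Fuchs

theorem continuous_turn {X : Type*} [TopologicalSpace X] (c : ℝ) {r : X → ℝ} (hr : Continuous r)
    (hpos : ∀ x, 0 < r x) {f : X → ℍ} (hf : Continuous f) :
    Continuous (fun x => turn c (r x) • f x) := by
  rw [UpperHalfPlane.isEmbedding_coe.continuous_iff]
  have e : (UpperHalfPlane.coe ∘ fun x => turn c (r x) • f x) =
      fun x => (c : ℂ) - (r x : ℂ) ^ 2 / ((f x : ℂ) - c) := by
    funext x
    exact turn_coe (hpos x) (f x)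
  rw [e]
  have h1 : Continuous fun x => (f x : ℂ) := UpperHalfPlane.continuous_coe.comp hf
  have h2 : Continuous fun x => (r x : ℂ) := Complex.continuous_ofReal.comp hr
  refine continuous_const.sub ((h2.pow 2).div (h1.sub continuous_const) fun x h0 => ?_)
  have := congrArg Complex.im h0
  simp at this
  exact (f x).im_ne_zero this

theorem continuous_a0 : Continuous a0 := by
  unfold a0
  refine Real.continuous_arsinh.comp (UpperHalfPlane.continuous_re.div UpperHalfPlane.continuous_im
    fun z => z.im_ne_zero)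

theorem continuous_gfun : Continuous gfun := by
  unfold gfun; fun_prop

theorem continuous_shear {X : Type*} [TopologicalSpace X] {t : X → ℝ} (ht : Continuous t)
    {f : X → ℍ} (hf : Continuous f) : Continuous (fun x => shear (t x) (f x)) := by
  rw [UpperHalfPlane.isEmbedding_coe.continuous_iff]
  have e : (UpperHalfPlane.coe ∘ fun x => shear (t x) (f x)) =
      fun x => ((Real.exp (t x * gfun (a0 (f x))) : ℝ) : ℂ) * (f x : ℂ) := by
    funext x
    simp only [Function.comp_apply, shear, scale]
    rw [UpperHalfPlane.coe_pos_real_smul, Complex.real_smul]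
  rw [e]
  have h1 : Continuous fun x => (f x : ℂ) := UpperHalfPlane.continuous_coe.comp hf
  have h2 : Continuous fun x => a0 (f x) := continuous_a0.comp hf
  have h3 : Continuous fun x => gfun (a0 (f x)) := continuous_gfun.comp h2
  exact (Complex.continuous_ofReal.comp (Real.continuous_exp.comp (ht.mul h3))).mul h1

theorem continuous_word {X : Type*} [TopologicalSpace X] (c : ℕ → ℝ) {r : X → ℕ → ℝ}
    (hr : ∀ n, Continuous fun x => r x n) (hpos : ∀ x n, 0 < r x n) (l : List ℕ)
    {f : X → ℍ} (hf : Continuous f) : Continuous (fun x => word c (r x) l • f x) := by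
  induction l with
  | nil => simpa [word] using hf
  | cons n t ih =>
    have e : (fun x => word c (r x) (n :: t) • f x) =
        fun x => turn (c n) (r x n) • (word c (r x) t • f x) := by
      funext x
      simp [word, mul_smul]
    rw [e]
    exact continuous_turn (c n) (hr n) (fun x => hpos x n) ih

section
variable {c ρ ρ' : ℕ → ℝ}

/-- the intermediate radii -/
noncomputable def rt (ρ : ℕ → ℝ) (τ t : ℝ) (n : ℕ) : ℝ := if n = 0 then ρ 0 * Real.exp (t * τ) else ρ n

theorem rt_zero (ρ : ℕ → ℝ) (τ t : ℝ) : rt ρ τ t 0 = ρ 0 * Real.exp (t * τ) := by simp [rt]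
theorem rt_ne (ρ : ℕ → ℝ) (τ t : ℝ) {n : ℕ} (hn : n ≠ 0) : rt ρ τ t n = ρ n := by simp [rt, hn]

theorem rt_geo (g : Geo c ρ) (τ t : ℝ) : Geo c (rt ρ τ t) := by
  refine ⟨g.c0, fun n => ?_, fun n hn => ?_, fun n m hn hm hnm => ?_, fun a b ha hab => ?_⟩
  · rcases eq_or_ne n 0 with rfl | hn
    · rw [rt_zero]; exact mul_pos (g.ρpos 0) (Real.exp_pos _)
    · rw [rt_ne _ _ _ hn]; exact g.ρpos n
  · rw [rt_ne _ _ _ hn]; exact g.two n hn
  · rw [rt_ne _ _ _ hn, rt_ne _ _ _ hm]; exact g.sep n m hn hm hnm
  · obtain ⟨n, hn, q, h1, h2, h3⟩ := g.dense a b ha hab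
    exact ⟨n, hn, q, h1, h2, by rw [rt_ne _ _ _ hn]; exact h3⟩

/-- The quasiconformal homeomorphism conjugating the first group onto the second. -/
theorem exists_qc' (g : Geo c ρ) (g' : Geo c ρ') (hne : ∀ n, n ≠ 0 → ρ n = ρ' n) :
    ∃ w : ℍ ≃ₜ ℍ, IsotopicToId w ∧ IsQuasiconformal w ∧ deform w (grp c ρ) = grp c ρ' := by
  set τ := Real.log (ρ' 0 / ρ 0) with hτ
  have hn : ∀ t n, n ≠ 0 → ρ n = rt ρ τ t n := fun t n h => (rt_ne ρ τ t h).symm
  have hlog : ∀ t, Real.log (rt ρ τ t 0 / ρ 0) = t * τ := by
    intro t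
    rw [rt_zero, mul_div_cancel_left₀ _ (g.ρpos 0).ne', Real.log_exp]
  have h1 : rt ρ τ 1 = ρ' := by
    funext n
    rcases eq_or_ne n 0 with rfl | h
    · rw [rt_zero, one_mul, Real.exp_log (div_pos (g'.ρpos 0) (g.ρpos 0)),
        mul_div_cancel₀ _ (g.ρpos 0).ne']
    · rw [rt_ne _ _ _ h, hne n h]
  have h0 : rt ρ τ 0 = ρ := by
    funext n
    rcases eq_or_ne n 0 with rfl | h
    · rw [rt_zero, zero_mul, Real.exp_zero, mul_one]
    · rw [rt_ne _ _ _ h]
  have hdef : ∀ t, deform (theConj g (rt_geo g τ t) (hn t)).homeo (grp c ρ) = grp c (rt ρ τ t) :=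
    fun t => deform_theConj g (rt_geo g τ t) (hn t)
  refine ⟨(theConj g (rt_geo g τ 1) (hn 1)).homeo, ?_,
    (theConj g (rt_geo g τ 1) (hn 1)).homeo_qc, ?_⟩
  · refine ⟨fun t => (theConj g (rt_geo g τ t) (hn t)).homeo, ?_, ?_, rfl⟩
    · rw [continuous_iff_continuousAt]
      rintro ⟨t0, z0⟩
      obtain ⟨l, x, hl, hx, rfl⟩ := g.sys.tess z0
      have h2 : Continuous (fun p : ℝ × ℍ => word c (rt ρ τ p.1) l •
          shear (p.1 * τ) (word c ρ l.reverse • p.2)) := by
        apply continuous_word c (r := fun p : ℝ × ℍ => rt ρ τ p.1)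
        · intro n
          rcases eq_or_ne n 0 with rfl | h
          · simp only [rt_zero]
            exact continuous_const.mul (Real.continuous_exp.comp
              (continuous_fst.mul continuous_const))
          · simp only [rt_ne _ _ _ h]
            exact continuous_const
        · intro p n
          exact (rt_geo g τ p.1).ρpos n
        · exact continuous_shear (continuous_fst.mul continuous_const)
            ((continuous_const_smul _).comp continuous_snd)
      refine (h2.continuousAt (x := (t0, g.sys.W l • x))).congr ?_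
      have h3 : ∀ᶠ p : ℝ × ℍ in nhds (t0, g.sys.W l • x),
          p.2 ∈ Metric.closedBall (g.sys.W l • x) (1 / 10) := by
        rw [nhds_prod_eq]
        exact Filter.tendsto_snd.eventually
          (Metric.closedBall_mem_nhds (g.sys.W l • x) (show (0 : ℝ) < 1 / 10 by norm_num))
      filter_upwards [h3] with p hp
      rw [Metric.mem_closedBall, dist_comm] at hp
      have h4 := (theConj g (rt_geo g τ p.1) (hn p.1)).w_local l hx hp
      rw [← hlog p.1]
      exact h4.symm
    · ext1 z
      obtain ⟨l, x, hl, hx, rfl⟩ := g.sys.tess z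
      have h4 := (theConj g (rt_geo g τ 0) (hn 0)).w_word hl hx
      have h5 : (theConj g (rt_geo g τ 0) (hn 0)).h x = x := by
        show shear (Real.log (rt ρ τ 0 0 / ρ 0)) x = x
        rw [hlog, zero_mul, shear, zero_mul, scale_zero]
      rw [h5] at h4
      have h6 : (rt_geo g τ 0).sys.W l = g.sys.W l := by
        show word c (rt ρ τ 0) l = word c ρ l
        rw [h0]
      rw [h6] at h4
      exact h4
  · rw [hdef 1, h1]

end

end H892R2.Fuchs
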