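import Pool.Agent.H892R2.Fuchs.Sigma

open UpperHalfPlane Matrix MatrixGroups

namespace H892R2.Fuchs

/-- Abstract system of involutions with disjoint half-planes. -/
structure Sys where
  /-- the involutions -/
  R : ℕ → SL(2, ℝ)
  /-- signed distance functions -/
  σ : ℕ → ℍ → ℝ
  invol : ∀ (n : ℕ) (z : ℍ), R n • R n • z = z
  anti : ∀ (n : ℕ) (z : ℍ), σ n (R n • z) = - σ n z
  key : ∀ n m : ℕ, n ≠ m → ∀ z : ℍ, 3 / 2 ≤ σ n z + 2 * σ m z
  lip : ∀ (n : ℕ) (z w : ℍ), |Real.arsinh (σ n z) - Real.arsinh (σ n w)| ≤ dist z w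

namespace Sys

variable (S : Sys)

/-- the product of a word -/
noncomputable def W (l : List ℕ) : SL(2, ℝ) := (l.map S.R).prod

theorem W_nil (z : ℍ) : S.W [] • z = z := by simp [W]

theorem W_cons (n : ℕ) (l : List ℕ) (z : ℍ) : S.W (n :: l) • z = S.R n • S.W l • z := by
  simp [W, mul_smul]

theorem W_append (l l' : List ℕ) (z : ℍ) : S.W (l ++ l') • z = S.W l • S.W l' • z := by
  simp [W, mul_smul]

theorem W_inv (l : List ℕ) (z : ℍ) : S.W l.reverse • S.W l • z = z := by
  induction l generalizing z with
  | nil => simp [W_nil]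
  | cons n t ih =>
    rw [List.reverse_cons, W_append, W_cons, W_cons, W_nil, S.invol, ih]

theorem W_inv' (l : List ℕ) (z : ℍ) : S.W l • S.W l.reverse • z = z := by
  have := S.W_inv l.reverse z
  rwa [List.reverse_reverse] at this

/-- fundamental domain -/
def F : Set ℍ := {x | ∀ n, 0 ≤ S.σ n x}

end Sys

/-- cons with cancellation -/
def rcons (n : ℕ) : List ℕ → List ℕ
  | [] => [n]
  | (m :: t) => if m = n then t else n :: m :: t

theorem reduced_nil : Reduced [] := List.isChain_nil

theorem reduced_single (n : ℕ) : Reduced [n] := List.isChain_singleton n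

theorem reduced_cons_cons {n m : ℕ} {t : List ℕ} :
    Reduced (n :: m :: t) ↔ n ≠ m ∧ Reduced (m :: t) := List.isChain_cons_cons

theorem Reduced.tail {n : ℕ} {t : List ℕ} (h : Reduced (n :: t)) : Reduced t := by
  cases t with
  | nil => exact reduced_nil
  | cons m t => exact (reduced_cons_cons.1 h).2

theorem rcons_reduced (n : ℕ) {l : List ℕ} (h : Reduced l) : Reduced (rcons n l) := by
  cases l with
  | nil => exact reduced_single n
  | cons m t =>
    simp only [rcons]
    split_ifs with hm
    · exact h.tail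
    · exact reduced_cons_cons.2 ⟨fun e => hm e.symm, h⟩

namespace Sys

variable (S : Sys)

theorem W_rcons (n : ℕ) (l : List ℕ) (z : ℍ) : S.W (rcons n l) • z = S.R n • S.W l • z := by
  cases l with
  | nil => simp only [rcons]; rw [W_cons]
  | cons m t =>
    simp only [rcons]
    split_ifs with hm
    · rw [W_cons, hm, S.invol]
    · rw [W_cons]

/-- full reduction of a word -/
def _root_.H892R2.Fuchs.reduce (l : List ℕ) : List ℕ := l.foldr rcons []

theorem _root_.H892R2.Fuchs.reduce_reduced (l : List ℕ) : Reduced (reduce l) := by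
  induction l with
  | nil => exact reduced_nil
  | cons n t ih => exact rcons_reduced n ih

theorem W_reduce (l : List ℕ) (z : ℍ) : S.W (reduce l) • z = S.W l • z := by
  induction l with
  | nil => rfl
  | cons n t ih =>
    show S.W (rcons n (reduce t)) • z = _
    rw [W_rcons, ih, W_cons]

theorem tess_aux (k : ℕ) : ∀ z : ℍ, (∀ n, - S.σ n z ≤ k * (3 / 4)) →
    ∃ l x, Reduced l ∧ x ∈ S.F ∧ z = S.W l • x := by
  induction k with
  | zero =>
    intro z hz
    refine ⟨[], z, reduced_nil, fun n => ?_, (S.W_nil z).symm⟩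
    have := hz n
    simp at this
    exact this
  | succ k ih =>
    intro z hz
    by_cases hF : z ∈ S.F
    · exact ⟨[], z, reduced_nil, hF, (S.W_nil z).symm⟩
    · simp only [F, Set.mem_setOf_eq, not_forall, not_le] at hF
      obtain ⟨n, hn⟩ := hF
      have h1 := S.anti n z
      obtain ⟨l, x, hl, hx, e⟩ := ih (S.R n • z) (by
        intro m
        rcases eq_or_ne n m with rfl | hm
        · rw [h1]
          have : (0 : ℝ) ≤ k * (3 / 4) := by positivity
          linarith
        · have h2 := S.key n m hm (S.R n • z)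
          rw [h1] at h2
          have h3 := hz n
          push_cast at h3
          have : (0 : ℝ) ≤ k * (3 / 4) := by positivity
          linarith)
      refine ⟨rcons n l, x, rcons_reduced n hl, hx, ?_⟩
      rw [W_rcons, ← e, S.invol]

theorem tess (z : ℍ) : ∃ l x, Reduced l ∧ x ∈ S.F ∧ z = S.W l • x := by
  by_cases hF : z ∈ S.F
  · exact ⟨[], z, reduced_nil, hF, (S.W_nil z).symm⟩
  · simp only [F, Set.mem_setOf_eq, not_forall, not_le] at hF
    obtain ⟨n, hn⟩ := hF
    obtain ⟨k, hk⟩ := exists_nat_ge (- S.σ n z / (3 / 4))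
    apply S.tess_aux k z
    intro m
    rcases eq_or_ne n m with rfl | hm
    · rw [div_le_iff₀ (by norm_num)] at hk
      exact hk
    · have h2 := S.key n m hm z
      have : (0 : ℝ) ≤ k * (3 / 4) := by positivity
      linarith

theorem ping (n : ℕ) (t : List ℕ) (h : Reduced (n :: t)) {x : ℍ} (hx : x ∈ S.F) :
    S.σ n (S.W (n :: t) • x) ≤ 0 ∧ (t ≠ [] → S.σ n (S.W (n :: t) • x) ≤ -(3 / 2)) := by
  induction t generalizing n with
  | nil =>
    rw [W_cons, W_nil, S.anti]
    exact ⟨by linarith [hx n], fun h => absurd rfl h⟩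
  | cons m t ih =>
    obtain ⟨hnm, h'⟩ := reduced_cons_cons.1 h
    have h1 := (ih m h').1
    have h2 := S.key n m hnm (S.W (m :: t) • x)
    rw [W_cons, S.anti]
    exact ⟨by linarith, fun _ => by linarith⟩

theorem R_inj (n : ℕ) {z w : ℍ} (h : S.R n • z = S.R n • w) : z = w := smul_left_cancel _ h

/-- well-definedness of the equivariant extension -/
theorem wd (S' : Sys) {h : ℍ → ℍ} (hh : ∀ n x, S.σ n x = 0 → h (S.R n • x) = S'.R n • h x) :
    ∀ (l l' : List ℕ), Reduced l → Reduced l' → ∀ {x x' : ℍ}, x ∈ S.F → x' ∈ S.F →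
      S.W l • x = S.W l' • x' → S'.W l • h x = S'.W l' • h x' := by
  have aux : ∀ (n : ℕ) (t : List ℕ), Reduced (n :: t) → ∀ {x x' : ℍ}, x ∈ S.F → x' ∈ S.F →
      x = S.W (n :: t) • x' → h x = S'.W (n :: t) • h x' := by
    intro n t hr x x' hx hx' e
    have h1 := S.ping n t hr hx'
    rw [← e] at h1
    have h2 := hx n
    have h3 : t = [] := by
      by_contra h3
      have := h1.2 h3
      linarith
    subst h3
    rw [W_cons, W_nil] at e
    rw [W_cons, W_nil]
    have h4 : S.σ n x' = 0 := by
      have h5 := S.anti n x'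
      rw [← e] at h5
      have h6 := hx' n
      linarith
    rw [e, hh n x' h4]
  intro l
  induction l with
  | nil =>
    intro l' _ hl' x x' hx hx' e
    cases l' with
    | nil => rw [W_nil, W_nil] at e; rw [e]
    | cons n t =>
      rw [W_nil] at e
      rw [W_nil]
      exact aux n t hl' hx hx' e
  | cons n t ih =>
    intro l' hl hl' x x' hx hx' e
    cases l' with
    | nil =>
      rw [W_nil] at e
      rw [W_nil]
      exact (aux n t hl hx' hx e.symm).symm
    | cons m t' =>
      rcases eq_or_ne n m with rfl | hnm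
      · rw [W_cons, W_cons] at e
        rw [W_cons, W_cons, ih t' hl.tail hl'.tail hx hx' (S.R_inj n e)]
      · exfalso
        have h1 := (S.ping n t hl hx).1
        have h2 := (S.ping m t' hl' hx').1
        rw [← e] at h2
        have := S.key n m hnm (S.W (n :: t) • x)
        linarith

/-- words are determined by their action on an interior point of the fundamental domain -/
theorem word_inj : ∀ (l l' : List ℕ), Reduced l → Reduced l' → ∀ {x : ℍ}, (∀ n, 0 < S.σ n x) →
      S.W l • x = S.W l' • x → l = l' := by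
  have aux : ∀ (n : ℕ) (t : List ℕ), Reduced (n :: t) → ∀ {x : ℍ}, (∀ n, 0 < S.σ n x) →
      x ≠ S.W (n :: t) • x := by
    intro n t hr x hx e
    have h1 := (S.ping n t hr (x := x) fun n => (hx n).le).1
    rw [← e] at h1
    exact absurd (hx n) (not_lt.2 h1)
  intro l
  induction l with
  | nil =>
    intro l' _ hl' x hx e
    cases l' with
    | nil => rfl
    | cons n t =>
      rw [W_nil] at e
      exact absurd e (aux n t hl' hx)
  | cons n t ih =>
    intro l' hl hl' x hx e
    cases l' with
    | nil =>
      rw [W_nil] at e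
      exact absurd e.symm (aux n t hl hx)
    | cons m t' =>
      rcases eq_or_ne n m with rfl | hnm
      · rw [W_cons, W_cons] at e
        rw [ih t' hl.tail hl'.tail hx (S.R_inj n e)]
      · exfalso
        have h1 := (S.ping n t hl (x := x) fun n => (hx n).le).1
        have h2 := (S.ping m t' hl' (x := x) fun n => (hx n).le).1
        rw [← e] at h2
        have := S.key n m hnm (S.W (n :: t) • x)
        linarith

end Sys

end H892R2.Fuchs
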