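import Pool.Agent.H892R2.Fuchs.GeoSys

open UpperHalfPlane Matrix MatrixGroups

namespace H892R2.Fuchs

/-- scaling by `exp s` -/
noncomputable def scale (s : ℝ) (z : ℍ) : ℍ :=
  (⟨Real.exp s, Real.exp_pos s⟩ : {x : ℝ // 0 < x}) • z

theorem scale_re (s : ℝ) (z : ℍ) : (scale s z).re = Real.exp s * z.re :=
  UpperHalfPlane.pos_real_re _ _

theorem scale_im (s : ℝ) (z : ℍ) : (scale s z).im = Real.exp s * z.im :=
  UpperHalfPlane.pos_real_im _ _

theorem scale_scale (s t : ℝ) (z : ℍ) : scale s (scale t z) = scale (s + t) z := by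
  apply UpperHalfPlane.ext_re_im
  · rw [scale_re, scale_re, scale_re, Real.exp_add]; ring
  · rw [scale_im, scale_im, scale_im, Real.exp_add]; ring

theorem scale_zero (z : ℍ) : scale 0 z = z := by
  apply UpperHalfPlane.ext_re_im
  · rw [scale_re, Real.exp_zero, one_mul]
  · rw [scale_im, Real.exp_zero, one_mul]

theorem dist_scale_scale (s : ℝ) (z w : ℍ) : dist (scale s z) (scale s w) = dist z w :=
  (UpperHalfPlane.isometry_pos_mul _).dist_eq z w

/-- signed distance to the imaginary axis -/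
noncomputable def a0 (z : ℍ) : ℝ := Real.arsinh (z.re / z.im)

theorem a0_scale (s : ℝ) (z : ℍ) : a0 (scale s z) = a0 z := by
  have h := Real.exp_pos s
  have := z.im_pos
  rw [a0, a0, scale_re, scale_im]
  congr 1
  field_simp

/-- cut-off function -/
noncomputable def gfun (t : ℝ) : ℝ := max 0 (min 2 (1 - t))

theorem gfun_neg (t : ℝ) : gfun (-t) = 2 - gfun t := by
  unfold gfun
  rcases le_total t 1 with h1 | h1
  · rcases le_total (-1) t with h2 | h2
    · rw [min_eq_right (by linarith), min_eq_right (by linarith), max_eq_right (by linarith),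
        max_eq_right (by linarith)]; ring
    · rw [min_eq_right (by linarith), min_eq_left (by linarith), max_eq_left (by linarith),
        max_eq_right (by linarith)]; ring
  · rw [min_eq_left (by linarith), min_eq_right (by linarith), max_eq_right (by linarith),
        max_eq_left (by linarith)]; ring

theorem gfun_of_one_le {t : ℝ} (h : 1 ≤ t) : gfun t = 0 := by
  unfold gfun
  rw [min_eq_right (by linarith), max_eq_left (by linarith)]

theorem gfun_of_le {t : ℝ} (h : t ≤ -1) : gfun t = 2 := by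
  unfold gfun
  rw [min_eq_left (by linarith), max_eq_right (by linarith)]

theorem gfun_lip (a b : ℝ) : |gfun a - gfun b| ≤ |a - b| := by
  unfold gfun
  have h1 : |max 0 (min 2 (1 - a)) - max 0 (min 2 (1 - b))| ≤ |min 2 (1 - a) - min 2 (1 - b)| := by
    have := abs_max_sub_max_le_max (0 : ℝ) (min 2 (1 - a)) 0 (min 2 (1 - b))
    simpa using this
  have h2 : |min 2 (1 - a) - min 2 (1 - b)| ≤ |(1 - a) - (1 - b)| := by
    have := abs_min_sub_min_le_max (2 : ℝ) (1 - a) 2 (1 - b)
    simpa using this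
  refine h1.trans (h2.trans (le_of_eq ?_))
  rw [show (1 - a) - (1 - b) = -(a - b) by ring, abs_neg]

/-- the shear map -/
noncomputable def shear (τ : ℝ) (z : ℍ) : ℍ := scale (τ * gfun (a0 z)) z

theorem a0_shear (τ : ℝ) (z : ℍ) : a0 (shear τ z) = a0 z := a0_scale _ _

theorem shear_neg_shear (τ : ℝ) (z : ℍ) : shear (-τ) (shear τ z) = z := by
  unfold shear
  rw [a0_scale, scale_scale]
  convert scale_zero z using 2
  ring

theorem sinh_half_sq (s : ℝ) : (Real.exp s - 1) ^ 2 = 4 * Real.exp s * Real.sinh (s / 2) ^ 2 := by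
  have h1 : Real.exp s = Real.exp (s / 2) ^ 2 := by
    rw [← Real.exp_nat_mul]; congr 1; push_cast; ring
  have h2 : Real.exp (-(s / 2)) * Real.exp (s / 2) = 1 := by
    rw [← Real.exp_add]; simp
  rw [Real.sinh_eq, h1]
  set u := Real.exp (s / 2)
  set v := Real.exp (-(s / 2))
  have h3 : (u ^ 2 - 1) = u * (u - v) := by
    have : v * u = 1 := h2
    nlinarith
  rw [h3]; ring

theorem sinh_dist_scale (s : ℝ) (z : ℍ) :
    Real.sinh (dist (scale s z) z / 2) ^ 2 = Real.sinh (s / 2) ^ 2 * Real.cosh (a0 z) ^ 2 := by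
  have hy := z.im_pos
  have hs := Real.exp_pos s
  have h1 := UpperHalfPlane.cosh_dist' (scale s z) z
  rw [scale_re, scale_im] at h1
  have h2 : Real.cosh (dist (scale s z) z) = 1 + 2 * Real.sinh (dist (scale s z) z / 2) ^ 2 := by
    have := Real.cosh_two_mul (dist (scale s z) z / 2)
    rw [mul_div_cancel₀ _ (two_ne_zero)] at this
    rw [this, Real.cosh_sq]; ring
  rw [h2] at h1
  have h3 : Real.cosh (a0 z) ^ 2 = (z.re ^ 2 + z.im ^ 2) / z.im ^ 2 := by
    rw [Real.cosh_sq, a0, Real.sinh_arsinh]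
    field_simp
  rw [h3]
  have h4 := sinh_half_sq s
  have h5 : 2 * Real.sinh (dist (scale s z) z / 2) ^ 2 =
      (Real.exp s - 1) ^ 2 * (z.re ^ 2 + z.im ^ 2) / (2 * Real.exp s * z.im ^ 2) := by
    have : 2 * Real.sinh (dist (scale s z) z / 2) ^ 2 = _ - 1 := eq_sub_of_add_eq' h1
    rw [this]
    field_simp
    ring
  rw [h4] at h5
  have h6 : Real.sinh (dist (scale s z) z / 2) ^ 2 = (1 / 2) * (4 * Real.exp s * Real.sinh (s / 2) ^ 2 *
    (z.re ^ 2 + z.im ^ 2) / (2 * Real.exp s * z.im ^ 2)) := by linarith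
  rw [h6]
  field_simp
  ring

theorem cosh_two_le : Real.cosh 2 ≤ 4 := by
  rw [Real.cosh_eq]
  have h1 := Real.exp_one_lt_d9
  have h2 := Real.exp_neg_one_lt_d9
  have h3 : Real.exp 2 = Real.exp 1 ^ 2 := by rw [← Real.exp_nat_mul]; norm_num
  have h4 : Real.exp (-2) = Real.exp (-1) ^ 2 := by rw [← Real.exp_nat_mul]; norm_num
  have h5 := Real.exp_pos 1
  have h6 := Real.exp_pos (-1)
  rw [h3, h4]
  nlinarith

theorem dist_scale_le {s : ℝ} {z : ℍ} (hz : |a0 z| ≤ 2) :
    dist (scale s z) z ≤ 4 * |s| * Real.exp (|s| / 2) := by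
  have h1 := sinh_dist_scale s z
  have h2 : Real.cosh (a0 z) ≤ 4 := by
    refine le_trans ?_ cosh_two_le
    rw [Real.cosh_le_cosh]
    rwa [abs_of_nonneg (show (0 : ℝ) ≤ 2 by norm_num)]
  have h3 : Real.sinh (s / 2) ^ 2 = Real.sinh (|s| / 2) ^ 2 := by
    rcases abs_choice s with h | h <;> rw [h]
    rw [neg_div, Real.sinh_neg]; ring
  have h4 : 0 ≤ Real.sinh (|s| / 2) := Real.sinh_nonneg_iff.2 (by positivity)
  have h5 : 0 ≤ Real.sinh (dist (scale s z) z / 2) :=
    Real.sinh_nonneg_iff.2 (by positivity)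
  have hc := Real.cosh_pos (a0 z)
  have h6 : Real.sinh (dist (scale s z) z / 2) ≤ 4 * Real.sinh (|s| / 2) := by
    apply le_of_sq_le_sq _ (by positivity)
    rw [h1, h3]
    have h7 : Real.cosh (a0 z) ^ 2 ≤ 4 ^ 2 := by gcongr
    have h8 : 0 ≤ Real.sinh (|s| / 2) ^ 2 := by positivity
    nlinarith
  have h7 : dist (scale s z) z / 2 ≤ Real.sinh (dist (scale s z) z / 2) :=
    Real.self_le_sinh_iff.2 (by positivity)
  have h8 := sinh_le_mul_exp (x := |s| / 2)
  linarith

/-- Lipschitz constant of the shear map -/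
noncomputable def shearL (τ : ℝ) : ℝ := 1 + 4 * |τ| * Real.exp |τ|

theorem one_le_shearL (τ : ℝ) : 1 ≤ shearL τ := by
  unfold shearL
  have : 0 ≤ 4 * |τ| * Real.exp |τ| := by positivity
  linarith

theorem shearL_neg (τ : ℝ) : shearL (-τ) = shearL τ := by
  unfold shearL; rw [abs_neg]

theorem a0_lip (z w : ℍ) : |a0 z - a0 w| ≤ dist z w := lip_zero z w

theorem shear_lip (τ : ℝ) {z w : ℍ} (h : dist z w ≤ 1) :
    dist (shear τ z) (shear τ w) ≤ shearL τ * dist z w := by
  have h1 : dist (shear τ z) (shear τ w) ≤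
      dist (scale (τ * gfun (a0 z) - τ * gfun (a0 w)) z) z + dist z w := by
    have e : scale (τ * gfun (a0 z)) z =
        scale (τ * gfun (a0 w)) (scale (τ * gfun (a0 z) - τ * gfun (a0 w)) z) := by
      rw [scale_scale]; congr 1; ring
    unfold shear
    rw [e, dist_scale_scale]
    exact dist_triangle _ _ _
  have hd : 0 ≤ dist z w := dist_nonneg
  set s := τ * gfun (a0 z) - τ * gfun (a0 w) with hs
  have h2 : dist (scale s z) z ≤ 4 * |τ| * Real.exp |τ| * dist z w := by
    rcases eq_or_ne (gfun (a0 z)) (gfun (a0 w)) with hg | hg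
    · rw [hg, sub_self] at hs
      rw [hs, scale_zero, dist_self]
      positivity
    · have h3 : |a0 z| ≤ 2 := by
        have h4 := abs_le.1 ((a0_lip z w).trans h)
        rw [abs_le]
        constructor
        · by_contra h5
          push Not at h5
          apply hg
          rw [gfun_of_le (by linarith), gfun_of_le (by linarith)]
        · by_contra h5
          push Not at h5
          apply hg
          rw [gfun_of_one_le (by linarith), gfun_of_one_le (by linarith)]
      have h4 : |s| ≤ |τ| * dist z w := by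
        rw [hs, ← mul_sub, abs_mul]
        exact mul_le_mul_of_nonneg_left ((gfun_lip _ _).trans (a0_lip z w)) (abs_nonneg _)
      have h5 : |s| / 2 ≤ |τ| := by
        have : |τ| * dist z w ≤ |τ| * 1 := mul_le_mul_of_nonneg_left h (abs_nonneg _)
        have := abs_nonneg τ
        linarith
      calc dist (scale s z) z ≤ 4 * |s| * Real.exp (|s| / 2) := dist_scale_le h3
        _ ≤ 4 * (|τ| * dist z w) * Real.exp |τ| := by gcongr
        _ = _ := by ring
  unfold shearL
  linarith

theorem one_lt_a0 {z : ℍ} (h : 128 / 100 ≤ z.re / z.im) : 1 ≤ a0 z := by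
  have h1 := sinh_one_lt
  rw [a0, ← Real.sinh_le_sinh, Real.sinh_arsinh]
  linarith

theorem shear_of_far (τ : ℝ) {z : ℍ} (h : 128 / 100 ≤ z.re / z.im) : shear τ z = z := by
  rw [shear, gfun_of_one_le (one_lt_a0 h), mul_zero, scale_zero]

theorem a0_turn {ρ : ℝ} (h : 0 < ρ) (z : ℍ) : a0 (turn 0 ρ • z) = - a0 z := by
  have h1 := nsq_pos z 0
  have h3 := z.im_pos
  rw [a0, a0, ← Real.arsinh_neg, turn_re h, turn_im h]
  congr 1
  field_simp
  ring

theorem shear_turn {ρ ρ' τ : ℝ} (h : 0 < ρ) (h' : 0 < ρ') (hτ : Real.exp τ = ρ' / ρ) (z : ℍ) :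
    shear τ (turn 0 ρ • z) = turn 0 ρ' • shear τ z := by
  have h1 := nsq_pos z 0
  have e1 : Real.exp (τ * (2 - gfun (a0 z))) * Real.exp (τ * gfun (a0 z)) = (ρ' / ρ) ^ 2 := by
    rw [← hτ, ← Real.exp_add, ← Real.exp_nat_mul]; congr 1; push_cast; ring
  have e2 : nsq (shear τ z) 0 = Real.exp (τ * gfun (a0 z)) ^ 2 * nsq z 0 := by
    rw [nsq, nsq, shear, scale_re, scale_im]; ring
  have hk := Real.exp_pos (τ * gfun (a0 z))
  have e3 : Real.exp (τ * (2 - gfun (a0 z))) = (ρ' / ρ) ^ 2 / Real.exp (τ * gfun (a0 z)) :=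
    eq_div_of_mul_eq hk.ne' e1
  have e4 : shear τ (turn 0 ρ • z) = scale (τ * (2 - gfun (a0 z))) (turn 0 ρ • z) := by
    rw [shear, a0_turn h, gfun_neg]
  apply UpperHalfPlane.ext_re_im
  · rw [e4, scale_re, turn_re h, turn_re h', e2, e3]
    rw [shear, scale_re]
    field_simp
    ring
  · rw [e4, scale_im, turn_im h, turn_im h', e2, e3]
    rw [shear, scale_im]
    field_simp

end H892R2.Fuchs
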