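import Pool.Agent.H892R2.Fuchs.Defs

open UpperHalfPlane Matrix MatrixGroups

namespace H892R2.Fuchs

theorem nsq_turn {c ρ : ℝ} (h : 0 < ρ) (z : ℍ) :
    nsq (turn c ρ • z) c = ρ ^ 4 / nsq z c := by
  have h0 := nsq_pos z c
  have : nsq (turn c ρ • z) c = (ρ ^ 2) ^ 2 * ((z.re - c) ^ 2 + z.im ^ 2) / (nsq z c) ^ 2 := by
    rw [nsq, turn_re h, turn_im h]
    field_simp
    ring
  rw [this, ← nsq]
  field_simp

theorem turn_turn {c ρ : ℝ} (h : 0 < ρ) (z : ℍ) : turn c ρ • turn c ρ • z = z := by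
  have h0 := nsq_pos z c
  apply UpperHalfPlane.ext_re_im
  · rw [turn_re h, nsq_turn h, turn_re h]
    field_simp
    ring
  · rw [turn_im h, nsq_turn h, turn_im h]
    field_simp

theorem sig_zero (c ρ : ℕ → ℝ) (z : ℍ) : sig c ρ 0 z = z.re / z.im := by simp [sig]

theorem sig_ne {n : ℕ} (hn : n ≠ 0) (c ρ : ℕ → ℝ) (z : ℍ) :
    sig c ρ n z = (nsq z (c n) - ρ n ^ 2) / (2 * ρ n * z.im) := by simp [sig, hn]

theorem sig_turn {c ρ : ℕ → ℝ} (h0 : c 0 = 0) (hρ : ∀ n, 0 < ρ n) (n : ℕ) (z : ℍ) :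
    sig c ρ n (turn (c n) (ρ n) • z) = - sig c ρ n z := by
  have h1 := nsq_pos z (c n)
  have h2 := hρ n
  have h3 := z.im_pos
  rcases eq_or_ne n 0 with rfl | hn
  · rw [sig_zero, sig_zero, turn_re h2, turn_im h2, h0]
    rw [h0] at h1
    field_simp
    ring
  · rw [sig_ne hn, sig_ne hn, nsq_turn h2, turn_im h2]
    field_simp
    ring

theorem key {c ρ : ℕ → ℝ} (hρ : ∀ n, 0 < ρ n) (two : ∀ n, n ≠ 0 → 2 * ρ n ≤ c n)
    (sep : ∀ n m, n ≠ 0 → m ≠ 0 → n ≠ m → ρ n ^ 2 + ρ m ^ 2 + 4 * ρ n * ρ m ≤ (c n - c m) ^ 2)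
    {n m : ℕ} (hnm : n ≠ m) (z : ℍ) : 3 / 2 ≤ sig c ρ n z + 2 * sig c ρ m z := by
  have h1 := hρ n
  have h2 := hρ m
  have hy := z.im_pos
  set x := z.re with hx
  set y := z.im with hyy
  rcases eq_or_ne n 0 with rfl | hn
  · have hm : m ≠ 0 := fun h => hnm h.symm
    have h3 := two m hm
    rw [sig_zero, sig_ne hm, nsq, ← hx, ← hyy]
    have e : x / y + 2 * (((x - c m) ^ 2 + y ^ 2 - ρ m ^ 2) / (2 * ρ m * y))
        = (ρ m * x + ((x - c m) ^ 2 + y ^ 2 - ρ m ^ 2)) / (ρ m * y) := by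
      field_simp
    rw [e, le_div_iff₀ (by positivity)]
    nlinarith [sq_nonneg (x - c m + ρ m / 2), sq_nonneg (y - 3 / 4 * ρ m),
      mul_nonneg h2.le (sub_nonneg.2 h3), mul_pos h2 h2]
  · rcases eq_or_ne m 0 with rfl | hm
    · have h3 := two n hn
      rw [sig_zero, sig_ne hn, nsq, ← hx, ← hyy]
      have e : ((x - c n) ^ 2 + y ^ 2 - ρ n ^ 2) / (2 * ρ n * y) + 2 * (x / y)
          = (((x - c n) ^ 2 + y ^ 2 - ρ n ^ 2) + 4 * ρ n * x) / (2 * ρ n * y) := by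
        field_simp
        ring
      rw [e, le_div_iff₀ (by positivity)]
      nlinarith [sq_nonneg (x - c n + 2 * ρ n), sq_nonneg (y - 3 / 2 * ρ n),
        mul_nonneg h1.le (sub_nonneg.2 h3), mul_pos h1 h1]
    · have h3 := sep n m hn hm hnm
      rw [sig_ne hn, sig_ne hm, nsq, nsq, ← hx, ← hyy]
      set a := ρ n with ha
      set b := ρ m with hb
      set u := x - c n with hu
      set v := x - c m with hv
      have e : (u ^ 2 + y ^ 2 - a ^ 2) / (2 * a * y) + 2 * ((v ^ 2 + y ^ 2 - b ^ 2) / (2 * b * y))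
          = (b * (u ^ 2 + y ^ 2 - a ^ 2) + 2 * a * (v ^ 2 + y ^ 2 - b ^ 2)) / (2 * a * b * y) := by
        field_simp
      rw [e, le_div_iff₀ (by positivity)]
      have h4 : (c n - c m) ^ 2 = (u - v) ^ 2 := by rw [hu, hv]; ring
      rw [h4] at h3
      -- multiply by (b + 2a)
      have hs : 0 < b + 2 * a := by positivity
      have key1 : (b * u ^ 2 + 2 * a * v ^ 2) * (b + 2 * a) - 2 * a * b * (u - v) ^ 2
          = (b * u + 2 * a * v) ^ 2 := by ring
      have key2 : 0 ≤ (b * (u ^ 2 + y ^ 2 - a ^ 2) + 2 * a * (v ^ 2 + y ^ 2 - b ^ 2)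
          - 3 / 2 * (2 * a * b * y)) * (b + 2 * a) := by
        have h5 : 2 * a * b * (a ^ 2 + b ^ 2 + 4 * a * b) ≤ 2 * a * b * (u - v) ^ 2 :=
          mul_le_mul_of_nonneg_left h3 (by positivity)
        nlinarith [sq_nonneg (b * u + 2 * a * v), sq_nonneg ((b + 2 * a) * y - 3 / 2 * (a * b)),
          mul_pos h1 h2, sq_nonneg (a * b)]
      have := nonneg_of_mul_nonneg_left key2 hs
      linarith

/-- `cosh` of a difference of `arsinh`. -/
theorem cosh_arsinh_sub (a b : ℝ) :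
    Real.cosh (Real.arsinh a - Real.arsinh b) = √(1 + a ^ 2) * √(1 + b ^ 2) - a * b := by
  rw [Real.cosh_sub, Real.sinh_arsinh, Real.sinh_arsinh, Real.cosh_arsinh, Real.cosh_arsinh]

theorem abs_le_of_cosh_le {t d : ℝ} (hd : 0 ≤ d) (h : Real.cosh t ≤ Real.cosh d) : |t| ≤ d := by
  rw [Real.cosh_le_cosh] at h
  rwa [abs_of_nonneg hd] at h

theorem lip_zero (z w : ℍ) :
    |Real.arsinh (z.re / z.im) - Real.arsinh (w.re / w.im)| ≤ dist z w := by
  apply abs_le_of_cosh_le dist_nonneg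
  rw [cosh_arsinh_sub, UpperHalfPlane.cosh_dist']
  have hz := z.im_pos
  have hw := w.im_pos
  set x := z.re
  set y := z.im
  set u := w.re
  set v := w.im
  have e1 : √(1 + (x / y) ^ 2) = √(x ^ 2 + y ^ 2) / y := by
    rw [show 1 + (x / y) ^ 2 = (x ^ 2 + y ^ 2) / y ^ 2 by field_simp; ring,
      Real.sqrt_div (by positivity), Real.sqrt_sq hz.le]
  have e2 : √(1 + (u / v) ^ 2) = √(u ^ 2 + v ^ 2) / v := by
    rw [show 1 + (u / v) ^ 2 = (u ^ 2 + v ^ 2) / v ^ 2 by field_simp; ring,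
      Real.sqrt_div (by positivity), Real.sqrt_sq hw.le]
  rw [e1, e2]
  have s1 := Real.sq_sqrt (show 0 ≤ x ^ 2 + y ^ 2 by positivity)
  have s2 := Real.sq_sqrt (show 0 ≤ u ^ 2 + v ^ 2 by positivity)
  set p := √(x ^ 2 + y ^ 2)
  set q := √(u ^ 2 + v ^ 2)
  have : p / y * (q / v) - x / y * (u / v) = (2 * p * q - 2 * x * u) / (2 * y * v) := by
    field_simp
  rw [this]
  apply div_le_div_of_nonneg_right _ (by positivity)
  nlinarith [sq_nonneg (p - q)]

/-- the matrix moving the geodesic `|z - c| = ρ` to the imaginary axis -/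
noncomputable def straight (c ρ : ℝ) : Matrix (Fin 2) (Fin 2) ℝ :=
  !![1 / √(2 * ρ), -(c + ρ) / √(2 * ρ); 1 / √(2 * ρ), -(c - ρ) / √(2 * ρ)]

theorem straight_det {c ρ : ℝ} (h : 0 < ρ) : (straight c ρ).det = 1 := by
  have hs : √(2 * ρ) ≠ 0 := by positivity
  have h2 := Real.sq_sqrt (show 0 ≤ 2 * ρ by positivity)
  rw [straight, Matrix.det_fin_two_of]
  field_simp
  rw [h2]; ring

/-- as an element of `SL(2,ℝ)` -/
noncomputable def straightSL {c ρ : ℝ} (h : 0 < ρ) : SL(2, ℝ) := ⟨straight c ρ, straight_det h⟩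

theorem straight_coe {c ρ : ℝ} (h : 0 < ρ) (z : ℍ) :
    ((straightSL (c := c) h • z : ℍ) : ℂ) = (z - (c + ρ)) / (z - (c - ρ)) := by
  have hz : (z : ℂ) - (c - ρ) ≠ 0 := by
    intro h0
    have := congrArg Complex.im h0
    simp at this
    exact z.im_ne_zero this
  have hs : √(2 * ρ) ≠ 0 := by positivity
  have hs' : ((√(2 * ρ) : ℝ) : ℂ) ≠ 0 := by exact_mod_cast hs
  rw [UpperHalfPlane.coe_specialLinearGroup_apply]
  simp only [straightSL, straight, Matrix.of_apply, Matrix.cons_val', Matrix.cons_val_zero,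
    Matrix.cons_val_one, Matrix.cons_val_fin_one, Algebra.algebraMap_self, RingHom.id_apply]
  push_cast
  rw [div_mul_eq_mul_div, ← add_div, ← add_div, div_div_div_cancel_right₀ hs']
  congr 1 <;> ring

theorem straight_ratio {c ρ : ℝ} (h : 0 < ρ) (z : ℍ) :
    (straightSL (c := c) h • z : ℍ).re / (straightSL (c := c) h • z : ℍ).im =
      (nsq z c - ρ ^ 2) / (2 * ρ * z.im) := by
  have hy := z.im_pos
  have h1 : (straightSL (c := c) h • z : ℍ).re = ((straightSL (c := c) h • z : ℍ) : ℂ).re := rfl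
  have h2 : (straightSL (c := c) h • z : ℍ).im = ((straightSL (c := c) h • z : ℍ) : ℂ).im := rfl
  have hN : 0 < Complex.normSq ((z : ℂ) - (c - ρ)) := by
    rw [Complex.normSq_pos]
    intro h0
    have := congrArg Complex.im h0
    simp at this
    exact z.im_ne_zero this
  set N := Complex.normSq ((z : ℂ) - (c - ρ)) with hNN
  have hNv : N = (z.re - (c - ρ)) ^ 2 + z.im ^ 2 := by
    rw [hNN, Complex.normSq_apply]; simp; ring
  have e1 : (straightSL (c := c) h • z : ℍ).re = (nsq z c - ρ ^ 2) / N := by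
    rw [h1, straight_coe h, Complex.div_re, ← hNN, ← add_div]
    congr 1
    simp [nsq]
    ring
  have e2 : (straightSL (c := c) h • z : ℍ).im = (2 * ρ * z.im) / N := by
    rw [h2, straight_coe h, Complex.div_im, ← hNN, ← sub_div]
    congr 1
    simp
    ring
  rw [e1, e2, div_div_div_cancel_right₀ hN.ne']

theorem lip {c ρ : ℕ → ℝ} (hρ : ∀ n, 0 < ρ n) (n : ℕ) (z w : ℍ) :
    |Real.arsinh (sig c ρ n z) - Real.arsinh (sig c ρ n w)| ≤ dist z w := by
  rcases eq_or_ne n 0 with rfl | hn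
  · rw [sig_zero, sig_zero]; exact lip_zero z w
  · rw [sig_ne hn, sig_ne hn, ← straight_ratio (hρ n) z, ← straight_ratio (hρ n) w]
    refine (lip_zero _ _).trans (le_of_eq ?_)
    exact dist_smul _ _ _

end H892R2.Fuchs
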