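import Pool.Agent.H892R2.Fuchs.Shear

open UpperHalfPlane Matrix MatrixGroups

namespace H892R2.Fuchs

section
variable {c ρ ρ' : ℕ → ℝ}

theorem shear_eqv (g : Geo c ρ) (g' : Geo c ρ') (hne : ∀ n, n ≠ 0 → ρ n = ρ' n)
    {τ : ℝ} (hτ : Real.exp τ = ρ' 0 / ρ 0) (n : ℕ) (z : ℍ) (hz : |sig c ρ n z| ≤ 11 / 100) :
    shear τ (turn (c n) (ρ n) • z) = turn (c n) (ρ' n) • shear τ z := by
  rcases eq_or_ne n 0 with rfl | hn
  · rw [g.c0]
    exact shear_turn (g.ρpos 0) (g'.ρpos 0) hτ z
  · rw [← hne n hn]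
    have h1 : ∀ w : ℍ, |sig c ρ n w| ≤ 11 / 100 → shear τ w = w := by
      intro w hw
      apply shear_of_far
      have h2 := key g.ρpos g.two g.sep (Ne.symm hn) w
      rw [sig_zero] at h2
      have := (abs_le.1 hw).2
      linarith
    rw [h1 z hz, h1]
    rw [sig_turn g.c0 g.ρpos, abs_neg]
    exact hz

theorem shear_mapsF (g' : Geo c ρ') (hne : ∀ n, n ≠ 0 → ρ n = ρ' n)
    (τ : ℝ) (z : ℍ) (hz : ∀ n, 0 ≤ sig c ρ n z) (n : ℕ) : 0 ≤ sig c ρ' n (shear τ z) := by
  have e0 : (shear τ z).re / (shear τ z).im = z.re / z.im := by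
    have := a0_shear τ z
    rw [a0, a0] at this
    exact Real.arsinh_injective this
  rcases eq_or_ne n 0 with rfl | hn
  · rw [sig_zero, e0, ← sig_zero c ρ]; exact hz 0
  · by_cases h : 128 / 100 ≤ z.re / z.im
    · rw [shear_of_far τ h, sig_ne hn, ← hne n hn, ← sig_ne hn]; exact hz n
    · have h2 := key g'.ρpos g'.two g'.sep (Ne.symm hn) (shear τ z)
      rw [sig_zero, e0] at h2
      push Not at h
      linarith

/-- the conjugacy data between two groups with different `ρ 0` -/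
noncomputable def theConj (g : Geo c ρ) (g' : Geo c ρ') (hne : ∀ n, n ≠ 0 → ρ n = ρ' n) :
    Conj g.sys g'.sys where
  h := shear (Real.log (ρ' 0 / ρ 0))
  h' := shear (-Real.log (ρ' 0 / ρ 0))
  eqv := fun n z hz => shear_eqv g g' hne
    (Real.exp_log (div_pos (g'.ρpos 0) (g.ρpos 0))) n z hz
  eqv' := fun n z hz => shear_eqv g' g (fun n hn => (hne n hn).symm)
    (by rw [Real.exp_neg, Real.exp_log (div_pos (g'.ρpos 0) (g.ρpos 0)), inv_div]) n z hz
  maps := fun z hz n => shear_mapsF g' hne _ z hz n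
  maps' := fun z hz n => shear_mapsF g (fun n hn => (hne n hn).symm) _ z hz n
  left := shear_neg_shear _
  right := fun z => by
    have := shear_neg_shear (-Real.log (ρ' 0 / ρ 0)) z
    rwa [neg_neg] at this
  L := shearL (Real.log (ρ' 0 / ρ 0))
  hL := one_le_shearL _
  lip := fun z w h => shear_lip _ h
  lip' := fun z w h => by
    have := shear_lip (-Real.log (ρ' 0 / ρ 0)) h
    rwa [shearL_neg] at this

theorem moebius_ap (g : SL(2, ℝ)) (z : ℍ) : moebius g z = g • z := rfl

/-- The quasiconformal homeomorphism conjugates the first group onto the second. -/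
theorem deform_theConj (g : Geo c ρ) (g' : Geo c ρ') (hne : ∀ n, n ≠ 0 → ρ n = ρ' n) :
    deform (theConj g g' hne).homeo (grp c ρ) = grp c ρ' := by
  unfold deform grp
  rw [MonoidHom.map_closure, ← Set.range_comp]
  congr 1
  congr 1
  funext n
  ext1 z
  simp only [Function.comp_apply, MulEquiv.toMonoidHom_eq_coe,
    MonoidHom.coe_coe, MulAut.conj_apply, Homeomorph.mul_apply, moebius_ap]
  set w := (theConj g g' hne).homeo
  have h1 : w (turn (c n) (ρ n) • (w⁻¹ z)) = turn (c n) (ρ' n) • w (w⁻¹ z) :=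
    (theConj g g' hne).homeo_R n (w⁻¹ z)
  rw [h1]
  congr 1
  exact w.apply_symm_apply z

end

end H892R2.Fuchs
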